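import Pool.Agent.Lib.H65D.Main
import Pool.Agent.Lib.H31Q.Limit
import Pool.Agent.Lib.H31Q.Free

/-!
# Finitely presented monsters do not act with asymptotic dimension one

Let `E` be a finitely presented monster of type `(k)`, `2 ≤ k ≤ 7`, acting on a set `V` such that
the Schreier graphs of the orbits have (uniformly) asymptotic dimension at most one. Then the image
of `E` is finite (`k ≠ 7`) or virtually abelian (`k = 7`) and the action is not faithful; for
`k ≠ 7` all infinite Schreier graphs of `E` have asymptotic dimension at least two.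

Proof. A cover of multiplicity two by bounded sets has a nerve without triangles, so a graph. If
the Lebesgue number is large compared with the relators, the action lifts to the universal cover
of the nerve: a transitive `E`-set `O` which covers the given orbit and maps to a tree with bounded
connected fibres. Long paths of the tree are long chains of nested cuts of bounded size. For
`k ≠ 7` this is impossible (`SmallCuts`). If `E` has subexponential growth, then the tree contains
a long segment with finite side branches, which is a chain of finite cuts around one point, so the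
commutator subgroup of a normal subgroup of finite index fixes a point of `O` (`NestedCuts`), and
therefore all points.

Contracting self-similar groups with limit spaces of dimension one: a cover of the limit space of
multiplicity two by small open sets gives a cover of `X^*` by sets which are bounded because the
isotropy groups are finite; it is pulled back by powers of the shift, which are expanding.

Faithful quotients of wreath recursions: a homomorphism from `E` to the quotient lifts, at some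
level, to homomorphisms to `F` of the subgroup of `E` which fixes the words of this level.
-/

set_option autoImplicit false

namespace Pool.Agent.Results.MP_65b575_al.AsymptoticDimension

universe u v

/-! ### Definitions -/

/-- `G` has an abelian subgroup of finite index. -/
def VirtuallyAbelian (G : Type u) [Group G] : Prop :=
  ∃ A : Subgroup G, A.FiniteIndex ∧ ∀ x ∈ A, ∀ y ∈ A, x * y = y * x

/-- The ball of radius `n`: the products of at most `n` elements of `S` and inverses of elements
of `S`. -/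
def ball {G : Type u} [Group G] (S : Set G) (n : ℕ) : Set G :=
  {g | ∃ l : List G, l.length ≤ n ∧ (∀ x ∈ l, x ∈ S ∨ x⁻¹ ∈ S) ∧ l.prod = g}

/-- Subexponential growth: for some finite generating set and every `c > 0` some ball of radius
`n` has less than `exp (c n)` elements. -/
def SubexponentialGrowth (G : Type u) [Group G] : Prop :=
  ∃ S : Set G, S.Finite ∧ Subgroup.closure S = ⊤ ∧
    ∀ c : ℝ, 0 < c → ∃ n : ℕ, ((ball S n).ncard : ℝ) < Real.exp (c * n)

/-- The properties (2)-(7) of the problem. -/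
def MonsterProperty (k : ℕ) (G : Type u) [Group G] : Prop :=
  (k = 2 ∧ ∃ n : ℕ, 1 ≤ n ∧ ∀ g : G, g ^ n = 1) ∨
  (k = 3 ∧ ¬ IsCyclic G ∧ ∀ H : Subgroup G, H ≠ ⊤ → IsCyclic H) ∨
  (k = 4 ∧ ∃ p : ℕ, p.Prime ∧ ∀ H : Subgroup G, H ≠ ⊥ → H ≠ ⊤ → IsCyclic H ∧ Nat.card H = p) ∨
  (k = 5 ∧ ∀ g : G, ∀ m : ℕ, 1 ≤ m → ∃ h : G, h ^ m = g) ∨
  (k = 6 ∧ Finite (ConjClasses G)) ∨
  (k = 7 ∧ ∃ S : Set G, S.Finite ∧ Subgroup.closure S = ⊤ ∧
    (∀ P : Polynomial ℝ, ∃ r : ℕ, P.eval (r : ℝ) < ((ball S r).ncard : ℝ)) ∧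
    ∀ c : ℝ, 0 < c → ∃ r : ℕ, ((ball S r).ncard : ℝ) < Real.exp (c * r))

/-- `G` is a monster of type `(k)`, for `k` from 2 to 7. -/
def IsMonster (k : ℕ) (G : Type u) [Group G] : Prop :=
  Group.FG G ∧ Infinite G ∧ MonsterProperty k G

/-- The ball of radius `r` around `x` in the Schreier graph of the action with respect to `S`. -/
def orbitBall {E : Type u} [Group E] {V : Type v} (π : E →* Equiv.Perm V) (S : Set E) (x : V)
    (r : ℕ) : Set V :=
  {y | ∃ g ∈ ball S r, π g x = y}

/-- The asymptotic dimension of the Schreier graph of the action is at most `n`: for some finite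
generating set and for every `r` there is a cover by sets of bounded diameter, in which every point
lies in at most `n + 1` of the sets and every ball of radius `r` lies in one of the sets. -/
def AsdimLE {E : Type u} [Group E] {V : Type v} (π : E →* Equiv.Perm V) (n : ℕ) : Prop :=
  ∃ S : Set E, S.Finite ∧ Subgroup.closure S = ⊤ ∧ ∀ r : ℕ, ∃ (D : ℕ) (𝒲 : Set (Set V)),
    (∀ W ∈ 𝒲, ∀ x ∈ W, W ⊆ orbitBall π S x D) ∧
    (∀ x, {W | W ∈ 𝒲 ∧ x ∈ W}.encard ≤ n + 1) ∧ ∀ x, ∃ W ∈ 𝒲, orbitBall π S x r ⊆ W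

/-- A thin cover at the scale `r`: sets of at most `b` points, every point lies in at most two of
them and every ball of radius `r` lies in one of them. -/
def ThinCover {E : Type u} [Group E] {V : Type v} (π : E →* Equiv.Perm V) (S : Set E)
    (r b : ℕ) : Prop :=
  ∃ 𝒲 : Set (Set V), (∀ W ∈ 𝒲, W.Finite ∧ W.ncard ≤ b) ∧
    (∀ x, {W | W ∈ 𝒲 ∧ x ∈ W}.encard ≤ 2) ∧ ∀ x, ∃ W ∈ 𝒲, orbitBall π S x r ⊆ W

/-- The element `c` is undistorted and its powers have only roots of bounded order. -/
def Undistorted {E : Type u} [Group E] (S : Set E) (c : E) : Prop :=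
  ∃ M : ℕ, (∀ n k : ℕ, c ^ n ∈ ball S k → n ≤ M * k) ∧
    ∀ (h : E) (m e : ℕ), 0 < e → h ^ m = c ^ e → m ≤ M * e

/-- Automorphisms of the rooted tree `X^*` of finite words: permutations of the set of words which
preserve the length and the relation of being an initial segment. -/
def IsTreeAutomorphism {X : Type} (g : Equiv.Perm (List X)) : Prop :=
  (∀ w : List X, (g w).length = w.length) ∧ ∀ v w : List X, g v <+: g (v ++ w)

/-- The section of `g` at the word `v`: the self-map of the set of words with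
`g (v ++ w) = g v ++ sectionAt g v w` (when `g` is a tree automorphism). -/
def sectionAt {X : Type} (g : Equiv.Perm (List X)) (v w : List X) : List X :=
  (g (v ++ w)).drop v.length

/-- `Γ` is a group of automorphisms of the rooted tree `X^*` which is self-similar (closed under
sections) and contracting: for some finite subset `N`, the sections of every element at all long
words belong to `N`. -/
def ContractingSelfSimilar {X : Type} (Γ : Subgroup (Equiv.Perm (List X))) : Prop :=
  (∀ g ∈ Γ, IsTreeAutomorphism g) ∧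
  (∀ g ∈ Γ, ∀ v : List X, ∃ h ∈ Γ, sectionAt g v = h) ∧
  ∃ N : Set (Equiv.Perm (List X)), N.Finite ∧ (∀ h ∈ N, h ∈ Γ) ∧
    ∀ g ∈ Γ, ∃ k : ℕ, ∀ v : List X, k ≤ v.length → ∃ h ∈ N, sectionAt g v = h

/-- The last `n` letters `ξ (n - 1), ..., ξ 1, ξ 0` of the left-infinite word
`..., ξ 2, ξ 1, ξ 0`. -/
def leftWord {X : Type} (ξ : ℕ → X) : ℕ → List X
  | 0 => []
  | n + 1 => ξ n :: leftWord ξ n

/-- Asymptotic equivalence of left-infinite words: for every `n`, an element of a fixed finite set
maps the last `n` letters of `ξ` to those of `η`. -/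
def AsymptoticallyEquivalent {X : Type} (Γ : Subgroup (Equiv.Perm (List X))) (ξ η : ℕ → X) :
    Prop :=
  ∃ F : Set (Equiv.Perm (List X)), F.Finite ∧ (∀ g ∈ F, g ∈ Γ) ∧
    ∀ n : ℕ, ∃ g ∈ F, g (leftWord ξ n) = leftWord η n

/-- The limit space: the left-infinite words modulo asymptotic equivalence. -/
def LimitSpace {X : Type} (Γ : Subgroup (Equiv.Perm (List X))) : Type :=
  Quot (AsymptoticallyEquivalent Γ)

/-- The quotient topology of the product topology, `X` being discrete. -/
instance {X : Type} (Γ : Subgroup (Equiv.Perm (List X))) : TopologicalSpace (LimitSpace Γ) :=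
  letI : TopologicalSpace X := ⊥
  inferInstanceAs (TopologicalSpace (Quot (AsymptoticallyEquivalent Γ)))

/-- The covering dimension of `Y` is at most `d`: every finite open cover has an open refinement
in which every point lies in at most `d + 1` of the sets. -/
def CoveringDimLE (Y : Type) [TopologicalSpace Y] (d : ℕ) : Prop :=
  ∀ 𝒰 : Set (Set Y), 𝒰.Finite → (∀ U ∈ 𝒰, IsOpen U) → ⋃₀ 𝒰 = Set.univ →
    ∃ 𝒱 : Set (Set Y), (∀ V ∈ 𝒱, IsOpen V ∧ ∃ U ∈ 𝒰, V ⊆ U) ∧ ⋃₀ 𝒱 = Set.univ ∧
      ∀ y, {V | V ∈ 𝒱 ∧ y ∈ V}.encard ≤ d + 1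

/-- The group `F` acts on the rooted tree `X^*` by `α` with sections `τ` in `F` (a wreath
recursion), and every element which acts trivially has trivial sections in `F` at all long
words. -/
def IsRecursion {X F : Type} [Group F] (α : F →* Equiv.Perm (List X)) (τ : F → List X → F) :
    Prop :=
  (∀ f, IsTreeAutomorphism (α f)) ∧
  (∀ f v, sectionAt (α f) v = α (τ f v)) ∧
  (∀ f g v, τ (f * g) v = τ f (α g v) * τ g v) ∧
  ∀ f, α f = 1 → ∃ n : ℕ, ∀ v : List X, n ≤ v.length → τ f v = 1

/-- Every finitely generated subgroup contains a free group of rank two or is virtually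
abelian. -/
def StrongTits (F : Type) [Group F] : Prop :=
  ∀ H : Subgroup F, H.FG →
    (∃ ψ : FreeGroup Bool →* H, Function.Injective ψ) ∨ VirtuallyAbelian H

/-- `G` has no free subgroup of rank two. -/
def NoFreeSubgroup (G : Type u) [Group G] : Prop :=
  ¬ ∃ ψ : FreeGroup Bool →* G, Function.Injective ψ

/-! ### Proofs -/

open Pool.Agent.Lib.Helper67 Pool.Agent.H76.Pump

theorem isMonster_lib {k : ℕ} {G : Type u} [Group G] (h : IsMonster k G) :
    BA.IsMonster k G := h

/-- Long chains of cuts give an undistorted element and exclude the property (3). -/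
theorem dichotomy {G : Type u} [Group G] [hfp : Group.IsFinitelyPresented G] {S : Set G}
    (hS : S.Finite) (hgen : Subgroup.closure S = ⊤) {K : ℕ}
    (h : ∀ N : ℕ, ∃ (H : Subgroup G) (A : Fin N → Set (G ⧸ H)),
      Pool.Agent.Lib.H31.Ends.IsCutChain S K N A) :
    (∃ c : G, Undistorted S c) ∧ ¬ (¬ IsCyclic G ∧ ∀ H : Subgroup G, H ≠ ⊤ → IsCyclic H) := by
  obtain ⟨n, φ, hφ, R, hRf, hR⟩ := hfp.out
  obtain ⟨X, ⟨F⟩⟩ := Pool.Agent.Lib.H31.Ends.exists_flow_of_cutChain hφ hRf hR hgen K h
  obtain ⟨M, hM1, hM2⟩ := F.exists_element hφ hS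
  refine ⟨⟨F.c, M, ?_, hM2⟩, ?_⟩
  · rintro n k ⟨l, h1, h2, h3⟩
    exact (hM1 n l h2 h3).trans (Nat.mul_le_mul_left _ h1)
  · rintro ⟨h1, h2⟩
    exact F.not_T3 hφ ⟨h1, h2⟩

theorem not_monster {G : Type u} [Group G] {S : Set G} (hgen : Subgroup.closure S = ⊤)
    {c : G} (hc : Undistorted S c)
    (h3 : ¬ (¬ IsCyclic G ∧ ∀ H : Subgroup G, H ≠ ⊤ → IsCyclic H)) {k : ℕ} (hk : k ≠ 7) :
    ¬ MonsterProperty k G := by
  obtain ⟨M, h1, h2⟩ := hc
  have hinf : ∀ n : ℕ, 0 < n → c ^ n ≠ 1 := by
    intro n hn h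
    have := h1 n 0 ⟨[], by simp, by simp, by rw [h]; rfl⟩
    omega
  rintro (⟨_, n, hn, h⟩ | ⟨_, h⟩ | ⟨_, p, hp, h⟩ | ⟨_, h⟩ | ⟨_, h⟩ | ⟨h, _⟩)
  · exact hinf n hn (h c)
  · exact h3 h
  · have key : ∀ m : ℕ, 0 < m → Subgroup.zpowers (c ^ m) ≠ ⊤ → False := by
      intro m hm htop
      have hbot : Subgroup.zpowers (c ^ m) ≠ ⊥ := by
        rw [Ne, Subgroup.zpowers_eq_bot]
        exact hinf m hm
      have h4 := (h _ hbot htop).2
      rw [Nat.card_zpowers] at h4
      have h5 : (c ^ m) ^ p = 1 := by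
        rw [← h4]
        exact pow_orderOf_eq_one _
      rw [← pow_mul] at h5
      exact hinf _ (Nat.mul_pos hm hp.pos) h5
    by_cases htop : Subgroup.zpowers (c ^ 2) = ⊤
    · have h4 : c ∈ Subgroup.zpowers (c ^ 2) := by rw [htop]; trivial
      obtain ⟨k, hk⟩ := h4
      have hk' : (c ^ 2) ^ k = c := hk
      have h5 : c ^ (2 * k - 1) = 1 := by
        rw [zpow_sub_one, zpow_mul]
        have h6 : (c ^ (2 : ℤ)) ^ k = c := by exact_mod_cast hk'
        rw [h6, mul_inv_cancel]
      have h6 : c ^ (2 * k - 1).natAbs = 1 := by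
        rcases Int.natAbs_eq (2 * k - 1) with h7 | h7
        · rw [h7, zpow_natCast] at h5
          exact h5
        · rw [h7, zpow_neg, inv_eq_one, zpow_natCast] at h5
          exact h5
      exact hinf _ (Int.natAbs_pos.2 (by omega)) h6
    · exact key 2 (by norm_num) htop
  · obtain ⟨g, hg⟩ := h c (M + 1) (by omega)
    have h4 := h2 g (M + 1) 1 one_pos (by rw [hg, pow_one])
    omega
  · refine Pool.Agent.Lib.H31.Ends.not_finite_conj hgen (c := c) (M := M) ?_ h
    rintro r k ⟨l, h4, h5, h6⟩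
    exact h1 r k ⟨l, h6, h4, h5⟩
  · exact hk h

theorem finite_range {E : Type u} [Group E] {V : Type v} (π : E →* Equiv.Perm V) {A : Subgroup E}
    (hA : A.FiniteIndex) (h : ∀ a ∈ A, ∀ v, π a v = v) : Finite π.range := by
  have h1 : A ≤ π.ker := by
    intro a ha
    rw [MonoidHom.mem_ker]
    exact Equiv.ext fun v => h a ha v
  have h2 : π.ker.FiniteIndex := Subgroup.finiteIndex_of_le h1
  have h3 : Finite (E ⧸ π.ker) := Subgroup.finite_quotient_of_finiteIndex
  exact Finite.of_equiv _ (QuotientGroup.quotientKerEquivRange π).toEquiv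

theorem virtuallyAbelian_range {E : Type u} [Group E] {V : Type v} (π : E →* Equiv.Perm V)
    {A : Subgroup E} (hA : A.FiniteIndex)
    (h : ∀ a ∈ A, ∀ b ∈ A, ∀ v, π (a * b) v = π (b * a) v) : VirtuallyAbelian π.range := by
  refine ⟨A.map π.rangeRestrict, ?_, ?_⟩
  · constructor
    intro h0
    have h2 := Subgroup.index_map_dvd A π.rangeRestrict_surjective
    rw [h0, zero_dvd_iff] at h2
    exact hA.index_ne_zero h2
  · rintro _ ⟨x, hx, rfl⟩ _ ⟨y, hy, rfl⟩
    apply Subtype.ext
    show π x * π y = π y * π x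
    rw [← map_mul, ← map_mul]
    exact Equiv.ext fun v => h x hx y hy v

theorem finite_range_of_bounded {E : Type u} [Group E] {V : Type v} (hfg : Group.FG E)
    (π : E →* Equiv.Perm V) {N : ℕ} (h : ∀ x, (Set.range fun g => π g x).Finite ∧
      (Set.range fun g => π g x).ncard ≤ N) : Finite π.range := by
  refine finite_range π (E0_finiteIndex hfg N) fun a ha x => ?_
  let _ : MulAction E V := MulAction.compHom V π
  exact E0_smul ha x (h x).1 (h x).2

theorem thinCover_of_asdim {E : Type u} [Group E] {V : Type v} {π : E →* Equiv.Perm V}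
    {S T : Set E} (hTf : T.Finite) (hS : Subgroup.closure S = ⊤) (hSf : S.Finite)
    (h : ∀ r : ℕ, ∃ (D : ℕ) (𝒲 : Set (Set V)),
    (∀ W ∈ 𝒲, ∀ x ∈ W, W ⊆ orbitBall π S x D) ∧
    (∀ x, {W | W ∈ 𝒲 ∧ x ∈ W}.encard ≤ (1 : ℕ) + 1) ∧ ∀ x, ∃ W ∈ 𝒲, orbitBall π S x r ⊆ W)
    (r : ℕ) : ∃ b, ThinCover π T r b := by
  obtain ⟨m, hm⟩ := Pool.Agent.Lib.H65D.exists_scale hTf hS
  obtain ⟨D, 𝒲, h1, h2, h3⟩ := h (m * r)
  have hb : ∀ W ∈ 𝒲, W.Finite ∧ W.ncard ≤ (ball S D).ncard := by
    intro W hW
    rcases W.eq_empty_or_nonempty with h4 | ⟨x, hx⟩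
    · rw [h4]
      exact ⟨Set.finite_empty, by simp⟩
    · have h5 := h1 W hW x hx
      have h6 : orbitBall π S x D = (fun g => π g x) '' ball S D := by
        ext y
        constructor
        · rintro ⟨g, h1, h2⟩
          exact ⟨g, h1, h2⟩
        · rintro ⟨g, h1, h2⟩
          exact ⟨g, h1, h2⟩
      have h7 : (ball S D).Finite := BN.ball_finite hSf D
      rw [h6] at h5
      exact ⟨(h7.image _).subset h5,
        (Set.ncard_le_ncard h5 (h7.image _)).trans (Set.ncard_image_le h7)⟩
  refine ⟨(ball S D).ncard, 𝒲, hb, fun x => ?_, fun x => ?_⟩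
  · have h4 := h2 x
    norm_num at h4
    exact h4
  · obtain ⟨W, hW, h4⟩ := h3 x
    refine ⟨W, hW, fun y hy => h4 ?_⟩
    obtain ⟨g, hg, rfl⟩ := hy
    exact ⟨g, hm r hg, rfl⟩

theorem notInjective_of_virtuallyAbelian {E : Type u} [Group E] {V : Type v}
    {π : E →* Equiv.Perm V} {T : Set E} (hTf : T.Finite)
    (h3 : ∀ P : Polynomial ℝ, ∃ r : ℕ, P.eval (r : ℝ) < ((ball T r).ncard : ℝ))
    (h5 : VirtuallyAbelian π.range) : ¬ Function.Injective π := by
  intro hinj
  obtain ⟨A, hA, hAc⟩ := h5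
  have h6 : BA.VirtAb E := by
    refine ⟨A.comap π.rangeRestrict, ?_, fun x hx y hy => ?_⟩
    · constructor
      rw [Subgroup.index_comap_of_surjective _ π.rangeRestrict_surjective]
      exact hA.index_ne_zero
    · apply hinj
      rw [map_mul, map_mul]
      exact congrArg Subtype.val (hAc _ hx _ hy)
  obtain ⟨D, d, hCd⟩ := h6.growth hTf
  obtain ⟨n, hn⟩ := h3 (Polynomial.C (D : ℝ) * (Polynomial.X + 1) ^ d)
  have h7 : (Set.ncard (ball T n) : ℝ) ≤ (D : ℝ) * ((n : ℝ) + 1) ^ d := by
    exact_mod_cast hCd n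
  simp only [Polynomial.eval_mul, Polynomial.eval_C, Polynomial.eval_pow,
    Polynomial.eval_add, Polynomial.eval_X, Polynomial.eval_one] at hn
  exact absurd h7 (not_le.2 hn)

/-- Subexponential growth, arbitrary generating set. -/
theorem subexp (E : Type u) [Group E] [Group.IsFinitelyPresented E]
    (hE : SubexponentialGrowth E) {S : Set E} (hS : Subgroup.closure S = ⊤) :
    ∃ r : ℕ, ∀ b : ℕ, ∃ A : Subgroup E, A.FiniteIndex ∧
      ∀ (V : Type v) (π : E →* Equiv.Perm V), ThinCover π S r b → ∀ g ∈ A, ∀ h ∈ A, ∀ x,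
        π (g * h) x = π (h * g) x := by
  obtain ⟨T, hTf, hT, hsub⟩ := hE
  obtain ⟨r, hr⟩ := Pool.Agent.Lib.H65D.commute_of_thin.{u, v} E hTf hT hsub
  obtain ⟨m, hm⟩ := Pool.Agent.Lib.H65D.exists_scale hTf hS
  refine ⟨m * r, fun b => ?_⟩
  obtain ⟨A, hA, h1⟩ := hr b
  exact ⟨A, hA, fun V π hV => h1 V π (Pool.Agent.Lib.H65D.ThinCover.mono hV (hm r))⟩

/-- The statements on general actions (parts (1)-(3) of `result`). -/
theorem main (E : Type u) [Group E] [Group.IsFinitelyPresented E] :
    (∀ S : Set E, S.Finite → Subgroup.closure S = ⊤ → ∃ r : ℕ, ∀ b : ℕ,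
      (∃ c : E, Undistorted S c) ∨
      ∃ N : ℕ, ∀ (V : Type v) (π : E →* Equiv.Perm V), ThinCover π S r b → ∀ x,
        (Set.range fun g => π g x).Finite ∧ (Set.range fun g => π g x).ncard ≤ N) ∧
    (SubexponentialGrowth E → ∀ S : Set E, S.Finite → Subgroup.closure S = ⊤ →
      ∃ r : ℕ, ∀ b : ℕ, ∃ A : Subgroup E, A.FiniteIndex ∧
        ∀ (V : Type v) (π : E →* Equiv.Perm V), ThinCover π S r b → ∀ g ∈ A, ∀ h ∈ A,
          π (g * h) = π (h * g)) ∧
    ∀ (k : ℕ), IsMonster k E → ∀ (V : Type v) (π : E →* Equiv.Perm V), AsdimLE π 1 →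
      (k ≠ 7 → Finite π.range) ∧ VirtuallyAbelian π.range ∧ ¬ Function.Injective π := by
  refine ⟨fun S hSf hS => ?_, fun hE S _ hS => ?_, fun k hk V π hπ => ?_⟩
  · obtain ⟨r, hr⟩ := Pool.Agent.Lib.H65D.bounded_or_chains.{u, v} E hSf hS
    refine ⟨r, fun b => ?_⟩
    rcases hr b with h1 | h1
    · exact Or.inr h1
    · exact Or.inl (dichotomy hSf hS h1).1
  · obtain ⟨r, hr⟩ := subexp.{u, v} E hE hS
    refine ⟨r, fun b => ?_⟩
    obtain ⟨A, hA, h1⟩ := hr b
    exact ⟨A, hA, fun V π hV g hg h hh => Equiv.ext fun x => h1 V π hV g hg h hh x⟩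
  · obtain ⟨S, hSf, hS, hcov⟩ := hπ
    have hfg : Group.FG E := Group.fg_iff.2 ⟨S, hS, hSf⟩
    by_cases h7 : k = 7
    · subst h7
      have hk' := hk
      obtain ⟨-, -, hM⟩ := hk
      rcases hM with ⟨h, -⟩ | ⟨h, -⟩ | ⟨h, -⟩ | ⟨h, -⟩ | ⟨h, -⟩ | ⟨-, T, hTf, hT, h3, h4⟩
      · omega
      · omega
      · omega
      · omega
      · omega
      · obtain ⟨r, hr⟩ := subexp.{u, v} E ⟨T, hTf, hT, h4⟩ hT
        obtain ⟨b, hb⟩ := thinCover_of_asdim hTf hS hSf hcov r
        obtain ⟨A, hA, h5⟩ := hr b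
        have h6 : VirtuallyAbelian π.range := virtuallyAbelian_range π hA (h5 V π hb)
        exact ⟨fun h => absurd rfl h, h6, notInjective_of_virtuallyAbelian hTf h3 h6⟩
    · have h3 : Finite π.range := by
        obtain ⟨r, hr⟩ := Pool.Agent.Lib.H65D.bounded_or_chains.{u, v} E hSf hS
        obtain ⟨b, hb⟩ := thinCover_of_asdim hSf hS hSf hcov r
        rcases hr b with ⟨N, h1⟩ | h1
        · exact finite_range_of_bounded hfg π (h1 V π hb)
        · obtain ⟨⟨c, hc⟩, h4⟩ := dichotomy hSf hS h1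
          exact absurd hk.2.2 (not_monster hS hc h4 h7)
      refine ⟨fun _ => h3, ⟨⊥, inferInstance, ?_⟩, fun hinj => ?_⟩
      · rintro x hx y hy
        rw [Subgroup.mem_bot.1 hx, Subgroup.mem_bot.1 hy]
      · have h4 : Finite E := Finite.of_injective π.rangeRestrict (fun x y hxy =>
          hinj (congrArg Subtype.val hxy))
        exact not_finite_iff_infinite.2 hk.2.1 h4

theorem finite_of_isEmpty {X : Type} [IsEmpty X] : Finite (Equiv.Perm (List X)) := by
  have h1 : Subsingleton (List X) := by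
    constructor
    intro a b
    cases a with
    | nil =>
      cases b with
      | nil => rfl
      | cons x _ => exact (IsEmpty.false x).elim
    | cons x _ => exact (IsEmpty.false x).elim
  infer_instance

theorem virtuallyAbelian_of_finite {E : Type u} [Group E] {V : Type v} {π : E →* Equiv.Perm V}
    (h : Finite π.range) : VirtuallyAbelian π.range := by
  refine ⟨⊥, inferInstance, ?_⟩
  rintro x hx y hy
  rw [Subgroup.mem_bot.1 hx, Subgroup.mem_bot.1 hy]

theorem leftWord_eq {X : Type} (ξ : ℕ → X) (n : ℕ) :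
    leftWord ξ n = Pool.Agent.Lib.H31Q.leftWord ξ n := by
  induction n with
  | zero => rfl
  | succ n ih =>
    simp only [leftWord, Pool.Agent.Lib.H31Q.leftWord, ih]

theorem asymptotic_eq {X : Type} (Γ : Subgroup (Equiv.Perm (List X))) :
    AsymptoticallyEquivalent Γ = Pool.Agent.Lib.H31Q.AsymptoticallyEquivalent Γ.subtype := by
  funext ξ η
  refine propext ⟨?_, ?_⟩
  · rintro ⟨F, hF, hFΓ, h1⟩
    refine ⟨Subtype.val ⁻¹' F, hF.preimage Subtype.val_injective.injOn, fun n => ?_⟩
    obtain ⟨g, hg, h2⟩ := h1 n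
    refine ⟨⟨g, hFΓ g hg⟩, hg, ?_⟩
    rw [← leftWord_eq, ← leftWord_eq]
    exact h2
  · rintro ⟨F, hF, h1⟩
    refine ⟨Subtype.val '' F, hF.image _, ?_, fun n => ?_⟩
    · rintro _ ⟨g, -, rfl⟩
      exact g.2
    · obtain ⟨g, hg, h2⟩ := h1 n
      refine ⟨g, ⟨g, hg, rfl⟩, ?_⟩
      rw [← leftWord_eq, ← leftWord_eq] at h2
      exact h2

theorem contracting_lib {X : Type} {Γ : Subgroup (Equiv.Perm (List X))}
    (h : ContractingSelfSimilar Γ) :
    Pool.Agent.Lib.H31Q.ContractingSelfSimilar Γ.subtype := by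
  obtain ⟨h1, h2, N, hN, hNΓ, h3⟩ := h
  refine ⟨fun e => h1 e.1 e.2, fun e v => ?_, Subtype.val ⁻¹' N,
    hN.preimage Subtype.val_injective.injOn, fun e => ?_⟩
  · obtain ⟨h, hh, h4⟩ := h2 e.1 e.2 v
    exact ⟨⟨h, hh⟩, h4⟩
  · obtain ⟨k, hk⟩ := h3 e.1 e.2
    refine ⟨k, fun v hv => ?_⟩
    obtain ⟨f, hf, h4⟩ := hk v hv
    exact ⟨⟨f, hNΓ f hf⟩, hf, h4⟩

theorem thinCover_of_limitSpace {E : Type u} [Group E] {X : Type} [Finite X] [Nonempty X]
    {Γ : Subgroup (Equiv.Perm (List X))} (h : ContractingSelfSimilar Γ)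
    (hdim : CoveringDimLE (LimitSpace Γ) 1) {π : E →* Equiv.Perm (List X)} (hπ : ∀ e, π e ∈ Γ)
    {S : Set E} (hS : S.Finite) (r : ℕ) : ∃ b, ThinCover π S r b := by
  let _ : TopologicalSpace X := ⊥
  have : DiscreteTopology X := ⟨rfl⟩
  have h1 : Pool.Agent.Lib.H31Q.CoveringDimLE (Quot (AsymptoticallyEquivalent Γ)) 1 := hdim
  rw [asymptotic_eq] at h1
  exact Pool.Agent.Lib.H31Q.thinCover_of_limitSpace (contracting_lib h) h1
    (fun g => ⟨⟨π g, hπ g⟩, rfl⟩) hS r

/-- Homomorphisms to contracting self-similar groups with limit spaces of dimension one. -/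
theorem limit (E : Type u) [Group E] [Group.IsFinitelyPresented E] (X : Type) [Finite X]
    (Γ : Subgroup (Equiv.Perm (List X))) (hΓ : ContractingSelfSimilar Γ)
    (hdim : CoveringDimLE (LimitSpace Γ) 1) (π : E →* Equiv.Perm (List X))
    (hπ : ∀ e, π e ∈ Γ) :
    (∀ S : Set E, S.Finite → Subgroup.closure S = ⊤ →
      (∃ c : E, Undistorted S c) ∨ Finite π.range) ∧
    (SubexponentialGrowth E → VirtuallyAbelian π.range) ∧
    ∀ k : ℕ, IsMonster k E →
      (k ≠ 7 → Finite π.range) ∧ VirtuallyAbelian π.range ∧ ¬ Function.Injective π := by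
  rcases isEmpty_or_nonempty X with hX | hX
  · have h1 : Finite (Equiv.Perm (List X)) := finite_of_isEmpty
    have h2 : Finite π.range := inferInstance
    exact ⟨fun _ _ _ => Or.inr h2, fun _ => virtuallyAbelian_of_finite h2, fun k hk =>
      ⟨fun _ => h2, virtuallyAbelian_of_finite h2, fun hinj =>
        not_finite_iff_infinite.2 hk.2.1 (Finite.of_injective π hinj)⟩⟩
  · have hthin : ∀ S : Set E, S.Finite → ∀ r, ∃ b, ThinCover π S r b :=
      fun S hS r => thinCover_of_limitSpace hΓ hdim hπ hS r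
    refine ⟨fun S hSf hS => ?_, fun hE => ?_, fun k hk => ?_⟩
    · have hfg : Group.FG E := Group.fg_iff.2 ⟨S, hS, hSf⟩
      obtain ⟨r, hr⟩ := Pool.Agent.Lib.H65D.bounded_or_chains.{u, 0} E hSf hS
      obtain ⟨b, hb⟩ := hthin S hSf r
      rcases hr b with ⟨N, h1⟩ | h1
      · exact Or.inr (finite_range_of_bounded hfg π (h1 _ π hb))
      · exact Or.inl (dichotomy hSf hS h1).1
    · obtain ⟨T, hTf, hT, hsub⟩ := hE
      obtain ⟨r, hr⟩ := subexp.{u, 0} E ⟨T, hTf, hT, hsub⟩ hT
      obtain ⟨b, hb⟩ := hthin T hTf r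
      obtain ⟨A, hA, h5⟩ := hr b
      exact virtuallyAbelian_range π hA (h5 _ π hb)
    · have hfg : Group.FG E := hk.1
      obtain ⟨S, hS, hSf⟩ := Group.fg_iff.1 hfg
      by_cases h7 : k = 7
      · subst h7
        have hk' := hk
        obtain ⟨-, -, hM⟩ := hk
        rcases hM with ⟨h, -⟩ | ⟨h, -⟩ | ⟨h, -⟩ | ⟨h, -⟩ | ⟨h, -⟩ | ⟨-, T, hTf, hT, h3, h4⟩
        · omega
        · omega
        · omega
        · omega
        · omega
        · obtain ⟨r, hr⟩ := subexp.{u, 0} E ⟨T, hTf, hT, h4⟩ hT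
          obtain ⟨b, hb⟩ := hthin T hTf r
          obtain ⟨A, hA, h5⟩ := hr b
          have h6 : VirtuallyAbelian π.range := virtuallyAbelian_range π hA (h5 _ π hb)
          exact ⟨fun h => absurd rfl h, h6, notInjective_of_virtuallyAbelian hTf h3 h6⟩
      · have h3 : Finite π.range := by
          obtain ⟨r, hr⟩ := Pool.Agent.Lib.H65D.bounded_or_chains.{u, 0} E hSf hS
          obtain ⟨b, hb⟩ := hthin S hSf r
          rcases hr b with ⟨N, h1⟩ | h1
          · exact finite_range_of_bounded hfg π (h1 _ π hb)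
          · obtain ⟨⟨c, hc⟩, h4⟩ := dichotomy hSf hS h1
            exact absurd hk.2.2 (not_monster hS hc h4 h7)
        exact ⟨fun _ => h3, virtuallyAbelian_of_finite h3, fun hinj =>
          not_finite_iff_infinite.2 hk.2.1 (Finite.of_injective π.rangeRestrict (fun x y hxy =>
            hinj (congrArg Subtype.val hxy)))⟩

/-- Homomorphisms to faithful quotients of wreath recursions. -/
theorem recursion (E : Type u) [Group E] [Group.IsFinitelyPresented E] (X : Type) [Finite X]
    (F : Type) [Group F] (α : F →* Equiv.Perm (List X)) (τ : F → List X → F)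
    (h : IsRecursion α τ) (hF : StrongTits F) (π : E →* Equiv.Perm (List X))
    (hπ : ∀ e, ∃ f, α f = π e) :
    (NoFreeSubgroup E → VirtuallyAbelian π.range) ∧
      (IsMonster 7 E → VirtuallyAbelian π.range ∧ ¬ Function.Injective π) := by
  have h1 : NoFreeSubgroup E → VirtuallyAbelian π.range := by
    intro hE
    obtain ⟨C, hC, h2⟩ := Pool.Agent.Lib.H31Q.comm_of_recursion hE h hF π hπ
    exact virtuallyAbelian_range π hC fun a ha b hb v => by rw [h2 a ha b hb]
  refine ⟨h1, fun hk => ?_⟩
  obtain ⟨-, -, hM⟩ := hk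
  rcases hM with ⟨h, -⟩ | ⟨h, -⟩ | ⟨h, -⟩ | ⟨h, -⟩ | ⟨h, -⟩ | ⟨-, T, hTf, hT, h3, h4⟩
  · omega
  · omega
  · omega
  · omega
  · omega
  · have h5 : NoFreeSubgroup E := by
      rintro ⟨ψ, hψ⟩
      obtain ⟨c, hc, h6⟩ := Pool.Agent.Lib.H31Q.growth_of_free hψ hTf hT
      obtain ⟨r, hr⟩ := h4 c hc
      exact absurd (h6 r) (not_le.2 hr)
    exact ⟨h1 h5, notInjective_of_virtuallyAbelian hTf h3 (h1 h5)⟩

/-- Let `E` be a finitely presented group.

(1) Let `S` be a finite generating set. There is a scale `r` such that for every `b` either `E` has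
an undistorted element whose powers have only roots of bounded order, or there is a bound for the
number of points of the orbits of all actions of `E` with thin covers (`r`, `b`).

(2) Let `S` be a finite generating set and let `E` have subexponential growth. There is a scale `r`
such that for every `b` there is a subgroup `A` of finite index which acts commutatively whenever
`E` acts with a thin cover (`r`, `b`).

(3) Let `E` be a monster of type `(k)`, `2 ≤ k ≤ 7`, acting on `V` with asymptotic dimension at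
most one. Then the image of `E` is finite if `k ≠ 7`, it is virtually abelian, and the action is
not faithful.

(4) Let `Γ` be a contracting self-similar group of automorphisms of the rooted tree `X^*`, `X`
finite, whose limit space has covering dimension at most one, and let `E` act on `X^*` by elements
of `Γ`. Then `E` has an undistorted element (as in (1)) or the image of `E` is finite. If `E` has
subexponential growth, then the image of `E` is virtually abelian. If `E` is a monster of type
`(k)`, `2 ≤ k ≤ 7`, then the image of `E` is finite if `k ≠ 7`, it is virtually abelian, and the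
action is not faithful.

(5) Let a group `F` act on the rooted tree `X^*`, `X` finite, with sections in `F` such that the
elements acting trivially have trivial sections in `F` at all long words, and let the finitely
generated subgroups of `F` without free subgroups of rank two be virtually abelian. If `E` acts on
`X^*` by elements of the image of `F`, then the image of `E` is virtually abelian if `E` has no
free subgroup of rank two; if `E` is a monster of type `(7)`, then moreover the action is not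
faithful. -/
theorem result (E : Type u) [Group E] [Group.IsFinitelyPresented E] :
    (∀ S : Set E, S.Finite → Subgroup.closure S = ⊤ → ∃ r : ℕ, ∀ b : ℕ,
      (∃ c : E, Undistorted S c) ∨
      ∃ N : ℕ, ∀ (V : Type v) (π : E →* Equiv.Perm V), ThinCover π S r b → ∀ x,
        (Set.range fun g => π g x).Finite ∧ (Set.range fun g => π g x).ncard ≤ N) ∧
    (SubexponentialGrowth E → ∀ S : Set E, S.Finite → Subgroup.closure S = ⊤ →
      ∃ r : ℕ, ∀ b : ℕ, ∃ A : Subgroup E, A.FiniteIndex ∧
        ∀ (V : Type v) (π : E →* Equiv.Perm V), ThinCover π S r b → ∀ g ∈ A, ∀ h ∈ A,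
          π (g * h) = π (h * g)) ∧
    (∀ (k : ℕ), IsMonster k E → ∀ (V : Type v) (π : E →* Equiv.Perm V), AsdimLE π 1 →
      (k ≠ 7 → Finite π.range) ∧ VirtuallyAbelian π.range ∧ ¬ Function.Injective π) ∧
    (∀ (X : Type) [Finite X] (Γ : Subgroup (Equiv.Perm (List X))), ContractingSelfSimilar Γ →
      CoveringDimLE (LimitSpace Γ) 1 → ∀ π : E →* Equiv.Perm (List X), (∀ e, π e ∈ Γ) →
        (∀ S : Set E, S.Finite → Subgroup.closure S = ⊤ →
          (∃ c : E, Undistorted S c) ∨ Finite π.range) ∧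
        (SubexponentialGrowth E → VirtuallyAbelian π.range) ∧
        ∀ k : ℕ, IsMonster k E →
          (k ≠ 7 → Finite π.range) ∧ VirtuallyAbelian π.range ∧ ¬ Function.Injective π) ∧
    ∀ (X : Type) [Finite X] (F : Type) [Group F] (α : F →* Equiv.Perm (List X))
      (τ : F → List X → F), IsRecursion α τ → StrongTits F →
      ∀ π : E →* Equiv.Perm (List X), (∀ e, ∃ f, α f = π e) →
        (NoFreeSubgroup E → VirtuallyAbelian π.range) ∧
        (IsMonster 7 E → VirtuallyAbelian π.range ∧ ¬ Function.Injective π) := by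
  obtain ⟨h1, h2, h3⟩ := main.{u, v} E
  exact ⟨h1, h2, h3, fun X _ Γ hΓ hdim π hπ => limit E X Γ hΓ hdim π hπ,
    fun X _ F _ α τ h hF π hπ => recursion E X F α τ h hF π hπ⟩

end Pool.Agent.Results.MP_65b575_al.AsymptoticDimension
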