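import Pool.Agent.Lib.H8PA.ThmB
import Pool.Agent.Lib.H8PA.W7

/-!
# Finitely presented groups and automorphisms of rooted trees with thin singular sets

Let `X` be a finite set, `E` a finitely presented group and `π` a homomorphism from `E` to the
automorphism group of the rooted tree `X^*`. If the singular rays of the automorphisms `π e` form
graphs with finite components (for example if each `π e` has only countably many singular rays),
then, under a mild condition on the sections or on the orbits, the image of `π` is virtually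
abelian or `E` is large. The hypotheses hold for the group generated by all finite-state
automorphisms of polynomial activity (of every degree) and all bounded automorphisms of bounded
depth; each finitely presented subgroup of this group is virtually abelian.
-/

namespace Pool.Agent.Results.MP_65b575_al.PolynomialActivity

universe u

/-! ### Definitions -/

/-- Automorphisms of the rooted tree `X^*` of finite words: permutations of the set of words which
preserve the length and the relation of being an initial segment. -/
def IsTreeAutomorphism {X : Type} (g : Equiv.Perm (List X)) : Prop :=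
  (∀ w : List X, (g w).length = w.length) ∧ ∀ v w : List X, g v <+: g (v ++ w)

/-- The section of `g` at the word `v`: the self-map of the set of words with
`g (v ++ w) = g v ++ sectionAt g v w` (when `g` is a tree automorphism). -/
def sectionAt {X : Type} (g : Equiv.Perm (List X)) (v w : List X) : List X :=
  (g (v ++ w)).drop v.length

/-- The initial segment of length `n` of the ray (infinite word) `ξ`. -/
def initialSegment {X : Type} (ξ : ℕ → X) (n : ℕ) : List X := (List.range n).map ξ

/-- The ray `ξ` is singular for `g`: the sections of `g` at all initial segments of `ξ` are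
nontrivial. -/
def Singular {X : Type} (g : Equiv.Perm (List X)) (ξ : ℕ → X) : Prop :=
  ∀ n : ℕ, sectionAt g (initialSegment ξ n) ≠ id

/-- `g` maps the ray `ξ` to the ray `η`. -/
def MapsRay {X : Type} (g : Equiv.Perm (List X)) (ξ η : ℕ → X) : Prop :=
  ∀ n : ℕ, g (initialSegment ξ n) = initialSegment η n

/-- `g` has only countably many singular rays. -/
def CountablySingular {X : Type} (g : Equiv.Perm (List X)) : Prop :=
  {ξ : ℕ → X | Singular g ξ}.Countable

/-- For every set `T` of words closed under initial segments, `g` has only finitely many sections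
at the words at which one leaves `T`. -/
def FewExits {X : Type} (g : Equiv.Perm (List X)) : Prop :=
  ∀ T : Set (List X), (∀ (v : List X) (x : X), v ++ [x] ∈ T → v ∈ T) →
    {s : List X → List X |
      ∃ (v : List X) (x : X), v ∈ T ∧ v ++ [x] ∉ T ∧ s = sectionAt g (v ++ [x])}.Finite

/-- For all finite sets `S` and `B` of elements of `E` the following holds. Let `A` be the set of
the rays which are singular for some `π s`, `s ∈ S`. Then from each ray of `A` one reaches only
finitely many rays by successive moves `a ↦ π b a`, `b ∈ B`, inside `A`. -/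
def FiniteComponents {X : Type} {E : Type u} [Group E] (π : E →* Equiv.Perm (List X)) : Prop :=
  ∀ S B : Set E, S.Finite → B.Finite → ∀ ξ : ℕ → X, (∃ s ∈ S, Singular (π s) ξ) →
    {η : ℕ → X | Relation.ReflTransGen
      (fun a b => (∃ s ∈ S, Singular (π s) b) ∧ ∃ e ∈ B, MapsRay (π e) a b) ξ η}.Finite

/-- All orbits of `E` on the set of rays are infinite. -/
def InfiniteOrbits {X : Type} {E : Type u} [Group E] (π : E →* Equiv.Perm (List X)) : Prop :=
  ∀ ξ : ℕ → X, {η : ℕ → X | ∃ e : E, MapsRay (π e) ξ η}.Infinite

/-- The number of words of length `n` at which `g` has a nontrivial section is bounded by a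
polynomial in `n`. -/
def PolynomiallyActive {X : Type} (g : Equiv.Perm (List X)) : Prop :=
  ∃ C d : ℕ, ∀ n : ℕ, {v : List X | v.length = n ∧ sectionAt g v ≠ id}.ncard ≤ C * (n + 1) ^ d

/-- `g` has only finitely many sections. -/
def FiniteState {X : Type} (g : Equiv.Perm (List X)) : Prop :=
  (Set.range (sectionAt g)).Finite

/-- The number of nontrivial sections of `g` at words of length `n` is bounded
independently of `n`. -/
def BoundedActivity {X : Type} (g : Equiv.Perm (List X)) : Prop :=
  ∃ C : ℕ, ∀ n : ℕ, {v : List X | v.length = n ∧ sectionAt g v ≠ id}.ncard ≤ C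

/-- The section of `g` at `v` changes only the first `k` letters of words. -/
def FinitaryAt {X : Type} (g : Equiv.Perm (List X)) (v : List X) (k : ℕ) : Prop :=
  ∀ u w : List X, u.length = k → sectionAt g v (u ++ w) = sectionAt g v u ++ w

/-- The depths of the finitary sections of `g` are bounded. -/
def BoundedDepth {X : Type} (g : Equiv.Perm (List X)) : Prop :=
  ∃ D : ℕ, ∀ v : List X, (∃ k, FinitaryAt g v k) → FinitaryAt g v D

/-- The group generated by all finite-state tree automorphisms of polynomial activity (of every
degree) and all tree automorphisms of bounded activity and bounded depth. -/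
def PolynomialGroup (X : Type) : Subgroup (Equiv.Perm (List X)) :=
  Subgroup.closure
    {g | IsTreeAutomorphism g ∧
      (FiniteState g ∧ PolynomiallyActive g ∨ BoundedActivity g ∧ BoundedDepth g)}

/-- `G` has an abelian subgroup of finite index. -/
def VirtuallyAbelian (G : Type u) [Group G] : Prop :=
  ∃ A : Subgroup G, A.FiniteIndex ∧ ∀ x ∈ A, ∀ y ∈ A, x * y = y * x

/-- `G` has a subgroup of finite index which maps onto a free group of rank two. -/
def Large (G : Type u) [Group G] : Prop :=
  ∃ H : Subgroup G, H.FiniteIndex ∧ ∃ f : H →* FreeGroup Bool, Function.Surjective f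

/-- The ball of radius `n`: the products of at most `n` elements of `S` and inverses of elements
of `S`. -/
def ball {G : Type u} [Group G] (S : Set G) (n : ℕ) : Set G :=
  {g | ∃ l : List G, l.length ≤ n ∧ (∀ x ∈ l, x ∈ S ∨ x⁻¹ ∈ S) ∧ l.prod = g}

/-- The properties (2)-(7) of the problem. -/
def MonsterProperty (k : ℕ) (G : Type u) [Group G] : Prop :=
  (k = 2 ∧ ∃ n : ℕ, 1 ≤ n ∧ ∀ g : G, g ^ n = 1) ∨
  (k = 3 ∧ ¬ IsCyclic G ∧ ∀ H : Subgroup G, H ≠ ⊤ → IsCyclic H) ∨
  (k = 4 ∧ ∃ p : ℕ, p.Prime ∧ ∀ H : Subgroup G, H ≠ ⊥ → H ≠ ⊤ → IsCyclic H ∧ Nat.card H = p) ∨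
  (k = 5 ∧ ∀ g : G, ∀ m : ℕ, 1 ≤ m → ∃ h : G, h ^ m = g) ∨
  (k = 6 ∧ Finite (ConjClasses G)) ∨
  (k = 7 ∧ ∃ S : Set G, S.Finite ∧ Subgroup.closure S = ⊤ ∧
    (∀ P : Polynomial ℝ, ∃ r : ℕ, P.eval (r : ℝ) < ((ball S r).ncard : ℝ)) ∧
    ∀ c : ℝ, 0 < c → ∃ r : ℕ, ((ball S r).ncard : ℝ) < Real.exp (c * r))

/-- `G` is a monster of type `(k)`, for `k` from 2 to 7. -/
def IsMonster (k : ℕ) (G : Type u) [Group G] : Prop :=
  Group.FG G ∧ Infinite G ∧ MonsterProperty k G

/-- The image of `π` is virtually abelian or `E` is large; if `E` is a monster of type `(k)`, then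
the image of `π` is virtually abelian and `π` is not injective. -/
def Conclusion {X : Type} {E : Type u} [Group E] (π : E →* Equiv.Perm (List X)) : Prop :=
  (VirtuallyAbelian π.range ∨ Large E) ∧
    ∀ k : ℕ, IsMonster k E → VirtuallyAbelian π.range ∧ ¬ Function.Injective π

/-! ### Proofs -/

open Pool.Agent.Lib.Helper67.BA (TA Bdd Dep RF ray pref ray_eq_iff)
open Pool.Agent.Lib.H8PA

theorem isMonster_lib {k : ℕ} {G : Type u} [Group G] (h : IsMonster k G) :
    Pool.Agent.Lib.Helper67.BA.IsMonster k G := h

theorem sectionAt_eq {X : Type} (g : TA X) (v : List X) :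
    sectionAt (g : Equiv.Perm (List X)) v = (TA.sec g v : TA X) := rfl

theorem sectionAt_id {X : Type} (g : TA X) (v : List X) :
    sectionAt (g : Equiv.Perm (List X)) v = id ↔ TA.sec g v = 1 := by
  rw [sectionAt_eq]
  constructor
  · intro h
    ext1 w
    exact congrFun h w
  · intro h
    rw [h]
    rfl

theorem sectionAt_ne {X : Type} (g : TA X) (v : List X) :
    sectionAt (g : Equiv.Perm (List X)) v ≠ id ↔ TA.sec g v ≠ 1 := not_congr (sectionAt_id g v)

theorem singular_iff {X : Type} (g : TA X) (ξ : ℕ → X) :
    Singular (g : Equiv.Perm (List X)) ξ ↔ ξ ∈ Sg g :=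
  forall_congr' fun _ => sectionAt_ne g _

theorem mapsRay_iff {X : Type} (g : TA X) (ξ η : ℕ → X) :
    MapsRay (g : Equiv.Perm (List X)) ξ η ↔ ray g ξ = η := ray_eq_iff.symm

theorem fewExits_iff {X : Type} (g : TA X) : FewExits (g : Equiv.Perm (List X)) ↔ Qp g := by
  have hinj : Function.Injective (fun h : TA X => ((h : Equiv.Perm (List X)) : List X → List X)) :=
    fun a b hab => TA.ext fun w => congrFun hab w
  refine forall_congr' fun T => imp_congr_right fun _ => ?_
  have h1 : {s : List X → List X | ∃ (v : List X) (x : X), v ∈ T ∧ v ++ [x] ∉ T ∧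
      s = sectionAt (g : Equiv.Perm (List X)) (v ++ [x])} =
      (fun h : TA X => ((h : Equiv.Perm (List X)) : List X → List X)) ''
        {h : TA X | ∃ (v : List X) (x : X), v ∈ T ∧ v ++ [x] ∉ T ∧ h = TA.sec g (v ++ [x])} := by
    ext s
    constructor
    · rintro ⟨v, x, hv, hx, rfl⟩
      exact ⟨_, ⟨v, x, hv, hx, rfl⟩, rfl⟩
    · rintro ⟨_, ⟨v, x, hv, hx, rfl⟩, rfl⟩
      exact ⟨v, x, hv, hx, rfl⟩
  rw [h1]
  exact Set.finite_image_iff hinj.injOn

theorem countablySingular_iff {X : Type} (g : TA X) :
    CountablySingular (g : Equiv.Perm (List X)) ↔ (Sg g).Countable := by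
  have h1 : {ξ : ℕ → X | Singular (g : Equiv.Perm (List X)) ξ} = Sg g :=
    Set.ext fun ξ => singular_iff g ξ
  unfold CountablySingular
  rw [h1]

theorem finiteComponents_iff {X : Type} {E : Type u} [Group E] {π : E →* Equiv.Perm (List X)}
    {j : E →* TA X} (hj : ∀ e, (j e : Equiv.Perm (List X)) = π e) :
    FiniteComponents π ↔ HypF j := by
  refine forall_congr' fun S => forall_congr' fun B => imp_congr_right fun _ =>
    imp_congr_right fun _ => forall_congr' fun ξ => ?_
  have h1 : ∀ ζ : ℕ → X, (∃ s ∈ S, Singular (π s) ζ) ↔ ζ ∈ Sing j S := by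
    intro ζ
    refine exists_congr fun s => and_congr_right fun _ => ?_
    rw [← hj]
    exact singular_iff _ _
  have h2 : (fun a b : ℕ → X => (∃ s ∈ S, Singular (π s) b) ∧ ∃ e ∈ B, MapsRay (π e) a b) =
      fun a b => b ∈ Sing j S ∧ ∃ e ∈ B, ray (j e) a = b := by
    funext a b
    refine propext (and_congr (h1 b) (exists_congr fun e => and_congr_right fun _ => ?_))
    rw [← hj]
    exact mapsRay_iff _ _ _
  rw [h1, h2]
  rfl

theorem infOrb_of {X : Type} {E : Type u} [Group E] {π : E →* Equiv.Perm (List X)}
    {j : E →* TA X} (hj : ∀ e, (j e : Equiv.Perm (List X)) = π e) (h : InfiniteOrbits π)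
    (ξ : ℕ → X) : InfOrb j ξ := by
  have h1 := h ξ
  have h2 : {η : ℕ → X | ∃ e : E, MapsRay (π e) ξ η} = Set.range fun e : E => ray (j e) ξ := by
    ext η
    refine exists_congr fun e => ?_
    rw [← hj]
    exact mapsRay_iff _ _ _
  rw [h2] at h1
  exact h1

theorem activity_eq {X : Type} (g : TA X) (n : ℕ) :
    {v : List X | v.length = n ∧ sectionAt (g : Equiv.Perm (List X)) v ≠ id} =
      {v : List X | v.length = n ∧ TA.sec g v ≠ 1} :=
  Set.ext fun v => and_congr_right fun _ => sectionAt_ne g v

theorem finiteState_sec {X : Type} (g : TA X) (h : FiniteState (g : Equiv.Perm (List X))) :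
    (Set.range (TA.sec g)).Finite := by
  have hinj : Function.Injective (fun h : TA X => ((h : Equiv.Perm (List X)) : List X → List X)) :=
    fun a b hab => TA.ext fun w => congrFun hab w
  apply Set.Finite.of_finite_image (f := fun h : TA X => ((h : Equiv.Perm (List X)) : List X → List X))
    _ hinj.injOn
  apply h.subset
  rintro _ ⟨_, ⟨v, rfl⟩, rfl⟩
  exact ⟨v, rfl⟩

theorem bdd_of {X : Type} (g : TA X) (h1 : BoundedActivity (g : Equiv.Perm (List X)))
    (h2 : BoundedDepth (g : Equiv.Perm (List X))) : Bdd g := by
  constructor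
  · obtain ⟨C, hC⟩ := h1
    refine ⟨C, fun n => ?_⟩
    rw [← activity_eq]
    exact hC n
  · have key : ∀ v k, FinitaryAt (g : Equiv.Perm (List X)) v k ↔ TA.sec g v ∈ Dep X k := by
      intro v k
      constructor
      · intro h u hu
        apply TA.sec_unique
        intro w
        exact h u w hu
      · intro h u w hu
        have h3 := TA.append (TA.sec g v) u w
        rw [h u hu] at h3
        exact h3
    obtain ⟨D, hD⟩ := h2
    refine ⟨D, fun v hv => ?_⟩
    rw [← key]
    apply hD
    obtain ⟨k, hk⟩ := hv
    exact ⟨k, (key v k).2 hk⟩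

theorem mem_polynomialGroup {X : Type} [Finite X] [Nonempty X] {g : Equiv.Perm (List X)}
    (hg : g ∈ PolynomialGroup X) : ∃ h : TA X, (h : Equiv.Perm (List X)) = g ∧ h ∈ CQ X := by
  have h1 : PolynomialGroup X ≤ (CQ X).map (TA X).subtype := by
    unfold PolynomialGroup
    rw [Subgroup.closure_le]
    rintro g ⟨h1, h2⟩
    refine ⟨⟨g, h1⟩, ?_, rfl⟩
    rcases h2 with ⟨h2, C, d, h3⟩ | ⟨h2, h3⟩
    · refine W6_fs (finiteState_sec ⟨g, h1⟩ h2) (C := C) (d := d) fun n => ?_
      rw [← activity_eq]
      exact h3 n
    · exact W6_bdd (bdd_of ⟨g, h1⟩ h2 h3)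
  obtain ⟨h, h2, h3⟩ := h1 hg
  exact ⟨h, h3, h2⟩

/-- over the empty alphabet all groups of tree automorphisms are trivial -/
theorem words_empty {X : Type} [IsEmpty X] (w : List X) : w = [] := by
  cases w with
  | nil => rfl
  | cons a _ => exact (IsEmpty.false a).elim

theorem range_of_comm {X : Type} {E : Type u} [Group E] (π : E →* Equiv.Perm (List X))
    (h : ∃ K : Subgroup E, K.FiniteIndex ∧ ∀ a ∈ K, ∀ b ∈ K, π (a * b) = π (b * a)) :
    VirtuallyAbelian π.range := by
  obtain ⟨K, hK, h⟩ := h
  refine ⟨K.map π.rangeRestrict, ?_, ?_⟩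
  · constructor
    intro h0
    have h2 := Subgroup.index_map_dvd K π.rangeRestrict_surjective
    rw [h0, zero_dvd_iff] at h2
    exact hK.index_ne_zero h2
  · rintro _ ⟨x, hx, rfl⟩ _ ⟨y, hy, rfl⟩
    apply Subtype.ext
    have h3 := h x hx y hy
    rw [map_mul, map_mul] at h3
    exact h3

theorem of_injective {X : Type} {E : Type u} [Group E] {π : E →* Equiv.Perm (List X)}
    (hi : Function.Injective π) (h : VirtuallyAbelian π.range) : VirtuallyAbelian E := by
  obtain ⟨A, hA, h⟩ := h
  refine ⟨A.comap π.rangeRestrict, ⟨?_⟩, fun x hx y hy => hi ?_⟩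
  · rw [Subgroup.index_comap_of_surjective _ π.rangeRestrict_surjective]
    exact hA.index_ne_zero
  have h1 := congrArg Subtype.val (h _ hx _ hy)
  rw [map_mul, map_mul]
  exact h1

theorem conclusion_of {X : Type} [Finite X] {E : Type u} [Group E]
    (π : E →* Equiv.Perm (List X)) (j : E →* TA X) (hj : ∀ e, (j e : Equiv.Perm (List X)) = π e)
    (h : ¬ Large E → VA j []) : Conclusion π := by
  classical
  have h1 : VirtuallyAbelian π.range ∨ Large E := by
    by_cases hL : Large E
    · exact Or.inr hL
    · left
      apply range_of_comm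
      obtain ⟨K, hK, h2⟩ := W7_VA_nil (h hL)
      refine ⟨K, hK, fun a ha b hb => ?_⟩
      rw [← hj, ← hj, h2 a ha b hb]
  refine ⟨h1, fun k hk => ?_⟩
  have h2 : VirtuallyAbelian π.range := by
    rcases h1 with h1 | h1
    · exact h1
    · exact absurd (isMonster_lib hk) (Pool.Agent.Lib.Helper67.BA.Large.not_monster h1 k)
  refine ⟨h2, fun hi => ?_⟩
  have hji : Function.Injective j := fun a b hab => hi (by rw [← hj, ← hj, hab])
  exact Pool.Agent.Lib.Helper67.BA.VirtAb.not_monster (of_injective hi h2) (W7_rf j hji) k
    (isMonster_lib hk)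

theorem main_aux {X : Type} [Finite X] {E : Type u} [Group E] [hE : Group.IsFinitelyPresented E]
    (π : E →* Equiv.Perm (List X)) (j : E →* TA X) (hj : ∀ e, (j e : Equiv.Perm (List X)) = π e)
    (hF : HypF j) (h : (∀ e, Qp (j e)) ∨ ∀ ξ, InfOrb j ξ) : Conclusion π := by
  apply conclusion_of π j hj
  intro hL
  rcases isEmpty_or_nonempty X with hX | hX
  · refine ⟨⊤, inferInstance, fun g _ => words_empty _, fun a _ b _ => ?_⟩
    ext1 w
    rw [words_empty (TA.sec (j (a * b)) [] w), words_empty (TA.sec (j (b * a)) [] w)]
  · have hfg : Group.FG E := by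
      obtain ⟨k, φ, hφ, -⟩ := hE.out
      exact Group.fg_of_surjective hφ
    exact W7_main hfg j (fun ξ hξ => thmB j hF hL ξ hξ) h

theorem inj_aux {X : Type} [Finite X] {E : Type u} [Group E] [Group.IsFinitelyPresented E]
    (π : E →* Equiv.Perm (List X)) (j : E →* TA X) (hj : ∀ e, (j e : Equiv.Perm (List X)) = π e)
    (h : ∀ e, j e ∈ CQ X) (hi : Function.Injective π) : VirtuallyAbelian E := by
  have hF : HypF j := hypF_of_countable j fun e => (h e).1
  rcases (main_aux π j hj hF (Or.inl fun e => (h e).2)).1 with h1 | h1
  · exact of_injective hi h1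
  · exfalso
    have hji : Function.Injective j := fun a b hab => hi (by rw [← hj, ← hj, hab])
    obtain ⟨ψ, hψ⟩ := W7_large_free h1
    rcases isEmpty_or_nonempty X with hX | hX
    · have h2 : ∀ a b : FreeGroup Bool, a = b := fun a b => (hji.comp hψ)
        (TA.ext fun w => (words_empty _).trans (words_empty _).symm)
      have h3 := h2 (FreeGroup.of true) (FreeGroup.of false)
      have h4 := FreeGroup.of_injective h3
      exact Bool.noConfusion h4
    · exact W6_no_free (j.comp ψ) (hji.comp hψ) fun u => h _

/-- Let `X` be a finite set, `E` a finitely presented group and `π` a homomorphism from `E` to the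
group of automorphisms of the rooted tree `X^*`.
(1) If all `π e` are in the group generated by the finite-state automorphisms of polynomial
activity and the automorphisms of bounded activity and bounded depth, then the image of `π` is
virtually abelian or `E` is large, `E` is virtually abelian if `π` is injective, and if `E` is a
monster of type (2)-(7), then the image is virtually abelian and `π` is not injective.
(2) The same is true if each `π e` has only countably many singular rays and has few exits.
(3) The assertions other than the one on injective `π` are true if `FiniteComponents π` holds, and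
each `π e` has few exits or all orbits on rays are infinite.
(4) `FiniteComponents π` holds if each `π e` has only countably many singular rays. -/
theorem result (X : Type) [Finite X] (E : Type u) [Group E] [Group.IsFinitelyPresented E]
    (π : E →* Equiv.Perm (List X)) (hπ : ∀ e : E, IsTreeAutomorphism (π e)) :
    ((∀ e : E, π e ∈ PolynomialGroup X) →
      Conclusion π ∧ (Function.Injective π → VirtuallyAbelian E)) ∧
    ((∀ e : E, CountablySingular (π e) ∧ FewExits (π e)) →
      Conclusion π ∧ (Function.Injective π → VirtuallyAbelian E)) ∧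
    (FiniteComponents π → ((∀ e : E, FewExits (π e)) ∨ InfiniteOrbits π) → Conclusion π) ∧
    ((∀ e : E, CountablySingular (π e)) → FiniteComponents π) := by
  classical
  let j : E →* TA X :=
    { toFun := fun e => ⟨π e, hπ e⟩
      map_one' := Subtype.ext (map_one π)
      map_mul' := fun a b => Subtype.ext (map_mul π a b) }
  have hj : ∀ e, (j e : Equiv.Perm (List X)) = π e := fun e => rfl
  have hCQ : (∀ e, j e ∈ CQ X) → Conclusion π ∧ (Function.Injective π → VirtuallyAbelian E) :=
    fun h => ⟨main_aux π j hj (hypF_of_countable j fun e => (h e).1) (Or.inl fun e => (h e).2),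
      fun hi => inj_aux π j hj h hi⟩
  refine ⟨fun h => ?_, fun h => ?_, fun h1 h2 => ?_, fun h => ?_⟩
  · rcases isEmpty_or_nonempty X with hX | hX
    · apply hCQ
      intro e
      have h1 : j e = 1 := TA.ext fun w => (words_empty _).trans (words_empty _).symm
      rw [h1]
      exact one_mem _
    · apply hCQ
      intro e
      obtain ⟨g, hg, hg2⟩ := mem_polynomialGroup (h e)
      have h1 : g = j e := Subtype.ext hg
      rw [← h1]
      exact hg2
  · apply hCQ
    intro e
    obtain ⟨h1, h2⟩ := h e
    exact ⟨(countablySingular_iff (j e)).1 h1, (fewExits_iff (j e)).1 h2⟩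
  · apply main_aux π j hj ((finiteComponents_iff hj).1 h1)
    rcases h2 with h2 | h2
    · exact Or.inl fun e => (fewExits_iff (j e)).1 (h2 e)
    · exact Or.inr (infOrb_of hj h2)
  · exact (finiteComponents_iff hj).2 (hypF_of_countable j fun e =>
      (countablySingular_iff (j e)).1 (h e))

end Pool.Agent.Results.MP_65b575_al.PolynomialActivity
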