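import Pool.Agent.Lib.H10G.Limit
import Pool.Agent.Lib.H31Q.Rate

/-!
# Schreier graphs of finitely presented monsters are not thin at any scale

Let `E` be a finitely presented monster of type `(k)`, `2 ≤ k ≤ 7`, and let `S` be a finite
generating set. There is `C` such that in every action of `E` which is not virtually abelian (for
`k ≠ 7`: whose image is infinite) and for all `m` and `R` there is a point `y` such that the ball
of radius `m` around `y` is not cut off, inside the ball of radius `R`, by at most `m / C` points.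
In particular the ball of radius `2 m` has more than `m ^ 2 / C` points. For `k ≠ 7` there is such
a point near every point with a large orbit.

Proof. If all balls of radius `m` are cut off by few points, then the Schreier graph has a
2-colouring with bounded monochromatic `r`-components (the exchange argument of Papasoglu), so it
has a thin cover, and `AsymptoticDimension` applies. The local statements follow by passing to
limits of Schreier graphs.

Groups acting on rooted trees: if the elements of length `n` have only few different sections at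
the words of length `k`, for suitable `n` and `k`, then a ball of radius `n` has few points, or it
is cut off by the few points at which the generators have nontrivial sections. So there are no
thick points. This applies to contracting actions with a small coefficient.
-/

set_option autoImplicit false

namespace Pool.Agent.Results.MP_65b575_al.QuadraticGrowth

universe u v

/-! ### Definitions -/

/-- `G` has an abelian subgroup of finite index. -/
def VirtuallyAbelian (G : Type u) [Group G] : Prop :=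
  ∃ A : Subgroup G, A.FiniteIndex ∧ ∀ x ∈ A, ∀ y ∈ A, x * y = y * x

/-- The ball of radius `n`: the products of at most `n` elements of `S` and inverses of elements
of `S`. -/
def ball {G : Type u} [Group G] (S : Set G) (n : ℕ) : Set G :=
  {g | ∃ l : List G, l.length ≤ n ∧ (∀ x ∈ l, x ∈ S ∨ x⁻¹ ∈ S) ∧ l.prod = g}

/-- Subexponential growth: for some finite generating set and every `c > 0` some ball of radius
`n` has less than `exp (c n)` elements. -/
def SubexponentialGrowth (G : Type u) [Group G] : Prop :=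
  ∃ S : Set G, S.Finite ∧ Subgroup.closure S = ⊤ ∧
    ∀ c : ℝ, 0 < c → ∃ n : ℕ, ((ball S n).ncard : ℝ) < Real.exp (c * n)

/-- The properties (2)-(7) of the problem. -/
def MonsterProperty (k : ℕ) (G : Type u) [Group G] : Prop :=
  (k = 2 ∧ ∃ n : ℕ, 1 ≤ n ∧ ∀ g : G, g ^ n = 1) ∨
  (k = 3 ∧ ¬ IsCyclic G ∧ ∀ H : Subgroup G, H ≠ ⊤ → IsCyclic H) ∨
  (k = 4 ∧ ∃ p : ℕ, p.Prime ∧ ∀ H : Subgroup G, H ≠ ⊥ → H ≠ ⊤ → IsCyclic H ∧ Nat.card H = p) ∨
  (k = 5 ∧ ∀ g : G, ∀ m : ℕ, 1 ≤ m → ∃ h : G, h ^ m = g) ∨
  (k = 6 ∧ Finite (ConjClasses G)) ∨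
  (k = 7 ∧ ∃ S : Set G, S.Finite ∧ Subgroup.closure S = ⊤ ∧
    (∀ P : Polynomial ℝ, ∃ r : ℕ, P.eval (r : ℝ) < ((ball S r).ncard : ℝ)) ∧
    ∀ c : ℝ, 0 < c → ∃ r : ℕ, ((ball S r).ncard : ℝ) < Real.exp (c * r))

/-- `G` is a monster of type `(k)`, for `k` from 2 to 7. -/
def IsMonster (k : ℕ) (G : Type u) [Group G] : Prop :=
  Group.FG G ∧ Infinite G ∧ MonsterProperty k G

/-- The ball of radius `r` around `x` in the Schreier graph of the action with respect to `S`. -/
def orbitBall {E : Type u} [Group E] {V : Type v} (π : E →* Equiv.Perm V) (S : Set E) (x : V)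
    (r : ℕ) : Set V :=
  {y | ∃ g ∈ ball S r, π g x = y}

/-- The finite set `A` separates the ball of radius `m` around `y` from the complement of the ball
of radius `R`: there is a set `U` in the ball of radius `R` such that `U ∪ A` contains the ball of
radius `m` and all neighbours of the points of `U`. -/
def Separates {E : Type u} [Group E] {V : Type v} (π : E →* Equiv.Perm V) (S : Set E) (y : V)
    (m R : ℕ) (A : Set V) : Prop :=
  ∃ U : Set V, U ⊆ orbitBall π S y R ∧ orbitBall π S y m ⊆ U ∪ A ∧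
    ∀ u ∈ U, orbitBall π S u 1 ⊆ U ∪ A

/-- The point `y` is thick: the ball of radius `m` is not cut off, inside the ball of radius `R`,
by at most `m / C` points, and (if `2 m ≤ R`) the ball of radius `2 m` has more than `m ^ 2 / C`
points. -/
def Thick {E : Type u} [Group E] {V : Type v} (π : E →* Equiv.Perm V) (S : Set E) (C m R : ℕ)
    (y : V) : Prop :=
  (∀ A : Set V, A.Finite → Separates π S y m R A → m < C * A.ncard) ∧
    (2 * m ≤ R → m ^ 2 < C * (orbitBall π S y (2 * m)).ncard)

/-- The element `c` is undistorted and its powers have only roots of bounded order. -/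
def Undistorted {E : Type u} [Group E] (S : Set E) (c : E) : Prop :=
  ∃ M : ℕ, (∀ n k : ℕ, c ^ n ∈ ball S k → n ≤ M * k) ∧
    ∀ (h : E) (m e : ℕ), 0 < e → h ^ m = c ^ e → m ≤ M * e

/-- Automorphisms of the rooted tree `X^*` of finite words: permutations of the set of words which
preserve the length and the relation of being an initial segment. -/
def IsTreeAutomorphism {X : Type} (g : Equiv.Perm (List X)) : Prop :=
  (∀ w : List X, (g w).length = w.length) ∧ ∀ v w : List X, g v <+: g (v ++ w)

/-- The section of `g` at the word `v`: the self-map of the set of words with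
`g (v ++ w) = g v ++ sectionAt g v w` (when `g` is a tree automorphism). -/
def sectionAt {X : Type} (g : Equiv.Perm (List X)) (v w : List X) : List X :=
  (g (v ++ w)).drop v.length

/-- The sections at words of length `k` of the elements of length at most `n`. -/
def sections {E : Type u} [Group E] {X : Type} (π : E →* Equiv.Perm (List X)) (S : Set E)
    (n k : ℕ) : Set (List X → List X) :=
  {s | ∃ g ∈ ball S n, ∃ v : List X, v.length = k ∧ s = sectionAt (π g) v}

/-- The words of length `k` at which an element of length at most one has a nontrivial section. -/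
def activeWords {E : Type u} [Group E] {X : Type} (π : E →* Equiv.Perm (List X)) (S : Set E)
    (k : ℕ) : Set (List X) :=
  {v | v.length = k ∧ ∃ g ∈ ball S 1, sectionAt (π g) v ≠ id}

/-- For every `c` there are `n` and `k` such that, if `a` is the number of sections at words of
length `k` of elements of length at most `n` and `b` is the number of active words of length `k`,
then `c * a * |X| ^ k ≤ n ^ 2` or `c * a * b ≤ n`. -/
def FewSections {E : Type u} [Group E] {X : Type} (π : E →* Equiv.Perm (List X)) (S : Set E) :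
    Prop :=
  ∀ c : ℕ, ∃ n k : ℕ, c * (sections π S n k).ncard * Nat.card X ^ k ≤ n ^ 2 ∨
    c * (sections π S n k).ncard * (activeWords π S k).ncard ≤ n

/-- The action is contracting with coefficient `ρ`: for some `q` and `D > 0`, the elements of
length at most `D / ρ ^ k` have altogether at most `q` different sections at words of length `k`. -/
def ContractsWith {E : Type u} [Group E] {X : Type} (π : E →* Equiv.Perm (List X)) (S : Set E)
    (ρ : ℝ) : Prop :=
  ∃ (q : ℕ) (D : ℝ), 0 < D ∧ ∀ n k : ℕ, (n : ℝ) * ρ ^ k ≤ D → (sections π S n k).ncard ≤ q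

/-- The number of active words of length `k` is at most `K * L ^ k`, for some `K`. -/
def ActivityRate {E : Type u} [Group E] {X : Type} (π : E →* Equiv.Perm (List X)) (S : Set E)
    (L : ℝ) : Prop :=
  ∃ K : ℝ, ∀ k : ℕ, ((activeWords π S k).ncard : ℝ) ≤ K * L ^ k

/-! ### Proofs -/

open Pool.Agent.Lib.Helper67 Pool.Agent.H76.Pump

/-- Long chains of cuts give an undistorted element and exclude the property (3). -/
theorem dichotomy {G : Type u} [Group G] [hfp : Group.IsFinitelyPresented G] {S : Set G}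
    (hS : S.Finite) (hgen : Subgroup.closure S = ⊤) {K : ℕ}
    (h : ∀ N : ℕ, ∃ (H : Subgroup G) (A : Fin N → Set (G ⧸ H)),
      Pool.Agent.Lib.H31.Ends.IsCutChain S K N A) :
    (∃ c : G, Undistorted S c) ∧ ¬ (¬ IsCyclic G ∧ ∀ H : Subgroup G, H ≠ ⊤ → IsCyclic H) := by
  obtain ⟨n, φ, hφ, R, hRf, hR⟩ := hfp.out
  obtain ⟨X, ⟨F⟩⟩ := Pool.Agent.Lib.H31.Ends.exists_flow_of_cutChain hφ hRf hR hgen K h
  obtain ⟨M, hM1, hM2⟩ := F.exists_element hφ hS
  refine ⟨⟨F.c, M, ?_, hM2⟩, ?_⟩
  · rintro n k ⟨l, h1, h2, h3⟩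
    exact (hM1 n l h2 h3).trans (Nat.mul_le_mul_left _ h1)
  · rintro ⟨h1, h2⟩
    exact F.not_T3 hφ ⟨h1, h2⟩

theorem not_monster {G : Type u} [Group G] {S : Set G} (hgen : Subgroup.closure S = ⊤)
    {c : G} (hc : Undistorted S c)
    (h3 : ¬ (¬ IsCyclic G ∧ ∀ H : Subgroup G, H ≠ ⊤ → IsCyclic H)) {k : ℕ} (hk : k ≠ 7) :
    ¬ MonsterProperty k G := by
  obtain ⟨M, h1, h2⟩ := hc
  have hinf : ∀ n : ℕ, 0 < n → c ^ n ≠ 1 := by
    intro n hn h
    have := h1 n 0 ⟨[], by simp, by simp, by rw [h]; rfl⟩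
    omega
  rintro (⟨_, n, hn, h⟩ | ⟨_, h⟩ | ⟨_, p, hp, h⟩ | ⟨_, h⟩ | ⟨_, h⟩ | ⟨h, _⟩)
  · exact hinf n hn (h c)
  · exact h3 h
  · have key : ∀ m : ℕ, 0 < m → Subgroup.zpowers (c ^ m) ≠ ⊤ → False := by
      intro m hm htop
      have hbot : Subgroup.zpowers (c ^ m) ≠ ⊥ := by
        rw [Ne, Subgroup.zpowers_eq_bot]
        exact hinf m hm
      have h4 := (h _ hbot htop).2
      rw [Nat.card_zpowers] at h4
      have h5 : (c ^ m) ^ p = 1 := by
        rw [← h4]
        exact pow_orderOf_eq_one _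
      rw [← pow_mul] at h5
      exact hinf _ (Nat.mul_pos hm hp.pos) h5
    by_cases htop : Subgroup.zpowers (c ^ 2) = ⊤
    · have h4 : c ∈ Subgroup.zpowers (c ^ 2) := by rw [htop]; trivial
      obtain ⟨k, hk⟩ := h4
      have hk' : (c ^ 2) ^ k = c := hk
      have h5 : c ^ (2 * k - 1) = 1 := by
        rw [zpow_sub_one, zpow_mul]
        have h6 : (c ^ (2 : ℤ)) ^ k = c := by exact_mod_cast hk'
        rw [h6, mul_inv_cancel]
      have h6 : c ^ (2 * k - 1).natAbs = 1 := by
        rcases Int.natAbs_eq (2 * k - 1) with h7 | h7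
        · rw [h7, zpow_natCast] at h5
          exact h5
        · rw [h7, zpow_neg, inv_eq_one, zpow_natCast] at h5
          exact h5
      exact hinf _ (Int.natAbs_pos.2 (by omega)) h6
    · exact key 2 (by norm_num) htop
  · obtain ⟨g, hg⟩ := h c (M + 1) (by omega)
    have h4 := h2 g (M + 1) 1 one_pos (by rw [hg, pow_one])
    omega
  · refine Pool.Agent.Lib.H31.Ends.not_finite_conj hgen (c := c) (M := M) ?_ h
    rintro r k ⟨l, h4, h5, h6⟩
    exact h1 r k ⟨l, h6, h4, h5⟩
  · exact hk h

theorem finite_range {E : Type u} [Group E] {V : Type v} (π : E →* Equiv.Perm V) {A : Subgroup E}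
    (hA : A.FiniteIndex) (h : ∀ a ∈ A, ∀ v, π a v = v) : Finite π.range := by
  have h1 : A ≤ π.ker := by
    intro a ha
    rw [MonoidHom.mem_ker]
    exact Equiv.ext fun v => h a ha v
  have h2 : π.ker.FiniteIndex := Subgroup.finiteIndex_of_le h1
  have h3 : Finite (E ⧸ π.ker) := Subgroup.finite_quotient_of_finiteIndex
  exact Finite.of_equiv _ (QuotientGroup.quotientKerEquivRange π).toEquiv

theorem virtuallyAbelian_range {E : Type u} [Group E] {V : Type v} (π : E →* Equiv.Perm V)
    {A : Subgroup E} (hA : A.FiniteIndex)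
    (h : ∀ a ∈ A, ∀ b ∈ A, ∀ v, π (a * b) v = π (b * a) v) : VirtuallyAbelian π.range := by
  refine ⟨A.map π.rangeRestrict, ?_, ?_⟩
  · constructor
    intro h0
    have h2 := Subgroup.index_map_dvd A π.rangeRestrict_surjective
    rw [h0, zero_dvd_iff] at h2
    exact hA.index_ne_zero h2
  · rintro _ ⟨x, hx, rfl⟩ _ ⟨y, hy, rfl⟩
    apply Subtype.ext
    show π x * π y = π y * π x
    rw [← map_mul, ← map_mul]
    exact Equiv.ext fun v => h x hx y hy v

theorem finite_range_of_bounded {E : Type u} [Group E] {V : Type v} (hfg : Group.FG E)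
    (π : E →* Equiv.Perm V) {N : ℕ} (h : ∀ x, (Set.range fun g => π g x).Finite ∧
      (Set.range fun g => π g x).ncard ≤ N) : Finite π.range := by
  refine finite_range π (E0_finiteIndex hfg N) fun a ha x => ?_
  let _ : MulAction E V := MulAction.compHom V π
  exact E0_smul ha x (h x).1 (h x).2

theorem notInjective_of_virtuallyAbelian {E : Type u} [Group E] {V : Type v}
    {π : E →* Equiv.Perm V} {T : Set E} (hTf : T.Finite)
    (h3 : ∀ P : Polynomial ℝ, ∃ r : ℕ, P.eval (r : ℝ) < ((ball T r).ncard : ℝ))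
    (h5 : VirtuallyAbelian π.range) : ¬ Function.Injective π := by
  intro hinj
  obtain ⟨A, hA, hAc⟩ := h5
  have h6 : BA.VirtAb E := by
    refine ⟨A.comap π.rangeRestrict, ?_, fun x hx y hy => ?_⟩
    · constructor
      rw [Subgroup.index_comap_of_surjective _ π.rangeRestrict_surjective]
      exact hA.index_ne_zero
    · apply hinj
      rw [map_mul, map_mul]
      exact congrArg Subtype.val (hAc _ hx _ hy)
  obtain ⟨D, d, hCd⟩ := h6.growth hTf
  obtain ⟨n, hn⟩ := h3 (Polynomial.C (D : ℝ) * (Polynomial.X + 1) ^ d)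
  have h7 : (Set.ncard (ball T n) : ℝ) ≤ (D : ℝ) * ((n : ℝ) + 1) ^ d := by
    exact_mod_cast hCd n
  simp only [Polynomial.eval_mul, Polynomial.eval_C, Polynomial.eval_pow,
    Polynomial.eval_add, Polynomial.eval_X, Polynomial.eval_one] at hn
  exact absurd h7 (not_le.2 hn)

/-- Limits of actions without thick points, first form. -/
theorem near_of_bounded {E : Type u} [Group E] {S : Set E} (hSf : S.Finite)
    (hS : Subgroup.closure S = ⊤) {r m R : ℕ} (hmR : m ≤ R) {N₀ : ℕ}
    (h : ∀ (V : Type u) (π : E →* Equiv.Perm V),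
      Pool.Agent.Lib.H65D.ThinCover π S r (ball S (2 * R + r)).ncard → ∀ x,
      (Set.range fun g => π g x).Finite ∧ (Set.range fun g => π g x).ncard ≤ N₀) :
    ∃ N : ℕ, ∀ (V : Type v) (π : E →* Equiv.Perm V) (x : V),
      ((Set.range fun g => π g x).Finite ∧ (Set.range fun g => π g x).ncard ≤ N) ∨
      ∃ y ∈ orbitBall π S x N, Thick π S (Pool.Agent.Lib.H10G.cutConst S r) m R y := by
  by_contra hcon
  push Not at hcon
  choose V π x h1 h2 using fun n : ℕ => hcon (max n N₀)
  have h3 : ∀ n, ∀ y ∈ orbitBall (π n) S (x n) n,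
      ¬ Pool.Agent.Lib.H10G.Thick (π n) S (Pool.Agent.Lib.H10G.cutConst S r) m R y :=
    fun n y hy => h2 n y (BN.orbitBall_mono (le_max_left _ _) hy)
  have h4 := Pool.Agent.Lib.H10G.limit_thin (𝒰 := Filter.hyperfilter ℕ) hSf hS
    (Pool.Agent.Lib.H10G.cutConst_pos S r) Nat.hyperfilter_le_atTop h3
  have h5 := Pool.Agent.Lib.H10G.limit_bounded (𝒰 := Filter.hyperfilter ℕ) hSf hS
    (h _ _ (Pool.Agent.Lib.H10G.thinCover_of_cuts hSf r hmR h4) _)
  obtain ⟨n, h6, h7⟩ := h5.exists
  exact absurd (h7.trans (le_max_right n N₀)) (not_le.2 (h1 n h6))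

/-- Limits of actions without thick points, second form. -/
theorem near_of_commute {E : Type u} [Group E] {S : Set E} (hSf : S.Finite)
    (hS : Subgroup.closure S = ⊤) {r m R : ℕ} (hmR : m ≤ R) {A : Subgroup E}
    (h : ∀ (V : Type u) (π : E →* Equiv.Perm V),
      Pool.Agent.Lib.H65D.ThinCover π S r (ball S (2 * R + r)).ncard → ∀ g ∈ A, ∀ h ∈ A, ∀ x,
        π (g * h) x = π (h * g) x) (L : ℕ) :
    ∃ N : ℕ, ∀ (V : Type v) (π : E →* Equiv.Perm V) (x : V),
      (∃ y ∈ orbitBall π S x N, Thick π S (Pool.Agent.Lib.H10G.cutConst S r) m R y) ∨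
      ∀ g ∈ A, ∀ h ∈ A, g ∈ ball S L → h ∈ ball S L → π (g * h) x = π (h * g) x := by
  by_contra hcon
  push Not at hcon
  choose V π x h1 g hg k hk hgL hkL h2 using hcon
  have h4 := Pool.Agent.Lib.H10G.limit_thin (𝒰 := Filter.hyperfilter ℕ) hSf hS
    (Pool.Agent.Lib.H10G.cutConst_pos S r) Nat.hyperfilter_le_atTop h1
  have h5 := h _ _ (Pool.Agent.Lib.H10G.thinCover_of_cuts hSf r hmR h4)
  have h6 : ∀ᶠ n in (Filter.hyperfilter ℕ : Filter ℕ), ∀ a ∈ ball S L, ∀ b ∈ ball S L, a ∈ A →
      b ∈ A → π n (a * b) (x n) = π n (b * a) (x n) := by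
    have h7 : (ball S L).Finite := BN.ball_finite hSf L
    rw [h7.eventually_all]
    intro a _
    rw [h7.eventually_all]
    intro b _
    by_cases hab : a ∈ A ∧ b ∈ A
    · have h8 := h5 a hab.1 b hab.2 ((1 : E) : E ⧸ _)
      rw [Pool.Agent.Lib.H10G.limAct_mk, Pool.Agent.Lib.H10G.limAct_mk, mul_one, mul_one,
        Pool.Agent.Lib.H10G.mk_eq_iff] at h8
      exact h8.mono fun n h9 _ _ => h9
    · exact Filter.Eventually.of_forall fun n ha hb => absurd ⟨ha, hb⟩ hab
  obtain ⟨n, hn⟩ := h6.exists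
  exact h2 n (hn _ (hgL n) _ (hkL n) (hg n) (hk n))

theorem Thick.mono {E : Type u} [Group E] {V : Type v} {π : E →* Equiv.Perm V} {S : Set E} {y : V}
    {C m R R' : ℕ} (h : Thick π S C m R' y) (hR : R ≤ R') : Thick π S C m R y :=
  Pool.Agent.Lib.H10G.Thick.mono h hR

/-- Thick points near all points, or long chains of cuts. -/
theorem near (E : Type u) [Group E] [Group.IsFinitelyPresented E] {S : Set E} (hSf : S.Finite)
    (hS : Subgroup.closure S = ⊤) : ∃ C : ℕ, 0 < C ∧ ∀ m R : ℕ,
      (∃ N : ℕ, ∀ (V : Type v) (π : E →* Equiv.Perm V) (x : V),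
        ((Set.range fun g => π g x).Finite ∧ (Set.range fun g => π g x).ncard ≤ N) ∨
        ∃ y ∈ orbitBall π S x N, Thick π S C m R y) ∨
      ∃ K : ℕ, ∀ N : ℕ, ∃ (H : Subgroup E) (A : Fin N → Set (E ⧸ H)),
        Pool.Agent.Lib.H31.Ends.IsCutChain S K N A := by
  obtain ⟨r, hr⟩ := Pool.Agent.Lib.H65D.bounded_or_chains.{u, u} E hSf hS
  refine ⟨_, Pool.Agent.Lib.H10G.cutConst_pos S r, fun m R => ?_⟩
  rcases hr (ball S (2 * max m R + r)).ncard with ⟨N₀, h1⟩ | h1
  · left
    obtain ⟨N, hN⟩ := near_of_bounded.{u, v} hSf hS (le_max_left m R) h1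
    refine ⟨N, fun V π x => ?_⟩
    rcases hN V π x with h2 | ⟨y, hy, h2⟩
    · exact Or.inl h2
    · exact Or.inr ⟨y, hy, h2.mono (le_max_right m R)⟩
  · exact Or.inr ⟨_, h1⟩

/-- Subexponential growth. -/
theorem subexp (E : Type u) [Group E] [Group.IsFinitelyPresented E]
    (hE : SubexponentialGrowth E) {S : Set E} (hSf : S.Finite) (hS : Subgroup.closure S = ⊤) :
    ∃ C : ℕ, 0 < C ∧ ∀ m R : ℕ, ∃ A : Subgroup E, A.FiniteIndex ∧ ∀ L : ℕ, ∃ N : ℕ,
      ∀ (V : Type v) (π : E →* Equiv.Perm V) (x : V), (∃ y ∈ orbitBall π S x N, Thick π S C m R y) ∨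
        ∀ g ∈ A, ∀ h ∈ A, g ∈ ball S L → h ∈ ball S L → π (g * h) x = π (h * g) x := by
  obtain ⟨T, hTf, hT, hsub⟩ := hE
  obtain ⟨r, hr⟩ := Pool.Agent.Lib.H65D.commute_of_thin.{u, u} E hTf hT hsub
  obtain ⟨q, hq⟩ := Pool.Agent.Lib.H65D.exists_scale hTf hS
  refine ⟨_, Pool.Agent.Lib.H10G.cutConst_pos S (q * r), fun m R => ?_⟩
  obtain ⟨A, hA, h1⟩ := hr (ball S (2 * max m R + q * r)).ncard
  refine ⟨A, hA, fun L => ?_⟩
  obtain ⟨N, hN⟩ := near_of_commute.{u, v} hSf hS (le_max_left m R)
    (fun V π hV => h1 V π (Pool.Agent.Lib.H65D.ThinCover.mono hV (hq r))) L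
  refine ⟨N, fun V π x => ?_⟩
  rcases hN V π x with ⟨y, hy, h2⟩ | h2
  · exact Or.inl ⟨y, hy, h2.mono (le_max_right m R)⟩
  · exact Or.inr h2

/-- The statements on general actions (parts (1)-(3) of `result`). -/
theorem main (E : Type u) [Group E] [Group.IsFinitelyPresented E] :
    (∀ S : Set E, S.Finite → Subgroup.closure S = ⊤ → ∃ C : ℕ, 0 < C ∧
      ((∃ c : E, Undistorted S c) ∨ ∀ m R : ℕ, ∃ N : ℕ,
        ∀ (V : Type v) (π : E →* Equiv.Perm V) (x : V),
          ((Set.range fun g => π g x).Finite ∧ (Set.range fun g => π g x).ncard ≤ N) ∨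
          ∃ y ∈ orbitBall π S x N, Thick π S C m R y)) ∧
    (SubexponentialGrowth E → ∀ S : Set E, S.Finite → Subgroup.closure S = ⊤ →
      ∃ C : ℕ, 0 < C ∧ ∀ m R : ℕ, ∃ A : Subgroup E, A.FiniteIndex ∧ ∀ L : ℕ, ∃ N : ℕ,
        ∀ (V : Type v) (π : E →* Equiv.Perm V) (x : V),
          (∃ y ∈ orbitBall π S x N, Thick π S C m R y) ∨
          ∀ g ∈ A, ∀ h ∈ A, g ∈ ball S L → h ∈ ball S L → π (g * h) x = π (h * g) x) ∧
    ∀ k : ℕ, IsMonster k E → ∀ S : Set E, S.Finite → Subgroup.closure S = ⊤ →
      ∃ C : ℕ, 0 < C ∧ ∀ m R : ℕ,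
        (k ≠ 7 → ∃ N : ℕ, ∀ (V : Type v) (π : E →* Equiv.Perm V) (x : V),
          ((Set.range fun g => π g x).Finite ∧ (Set.range fun g => π g x).ncard ≤ N) ∨
          ∃ y ∈ orbitBall π S x N, Thick π S C m R y) ∧
        ∀ (V : Type v) (π : E →* Equiv.Perm V),
          (¬ VirtuallyAbelian π.range ∨ Function.Injective π ∨ (k ≠ 7 ∧ Infinite π.range)) →
          ∃ y, Thick π S C m R y := by
  refine ⟨fun S hSf hS => ?_, fun hE S hSf hS => subexp E hE hSf hS, fun k hk S hSf hS => ?_⟩
  · obtain ⟨C, hC, h1⟩ := near.{u, v} E hSf hS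
    refine ⟨C, hC, ?_⟩
    by_cases h2 : ∃ c : E, Undistorted S c
    · exact Or.inl h2
    · refine Or.inr fun m R => ?_
      rcases h1 m R with h3 | ⟨K, h3⟩
      · exact h3
      · exact absurd (dichotomy hSf hS h3).1 h2
  · have hfg : Group.FG E := Group.fg_iff.2 ⟨S, hS, hSf⟩
    by_cases h7 : k = 7
    · subst h7
      obtain ⟨-, -, hM⟩ := hk
      rcases hM with ⟨h, -⟩ | ⟨h, -⟩ | ⟨h, -⟩ | ⟨h, -⟩ | ⟨h, -⟩ | ⟨-, T, hTf, hT, h3, h4⟩
      · omega
      · omega
      · omega
      · omega
      · omega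
      · obtain ⟨C, hC, hr⟩ := subexp.{u, v} E ⟨T, hTf, hT, h4⟩ hSf hS
        refine ⟨C, hC, fun m R => ⟨fun h => absurd rfl h, fun V π hπ => ?_⟩⟩
        by_contra hcon
        obtain ⟨A, hA, h5⟩ := hr m R
        have h6 : VirtuallyAbelian π.range := by
          refine virtuallyAbelian_range π hA fun a ha b hb v => ?_
          obtain ⟨ℓ, hℓ⟩ := Pool.Agent.Lib.H65D.exists_mem_ball hS a
          obtain ⟨ℓ', hℓ'⟩ := Pool.Agent.Lib.H65D.exists_mem_ball hS b
          obtain ⟨N, hN⟩ := h5 (max ℓ ℓ')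
          rcases hN V π v with ⟨y, -, hy⟩ | h8
          · exact absurd ⟨y, hy⟩ hcon
          · exact h8 a ha b hb (BN.ball_mono (le_max_left _ _) hℓ)
              (BN.ball_mono (le_max_right _ _) hℓ')
        rcases hπ with hπ | hπ | hπ
        · exact hπ h6
        · exact notInjective_of_virtuallyAbelian hTf h3 h6 hπ
        · exact hπ.1 rfl
    · obtain ⟨C, hC, h1⟩ := near.{u, v} E hSf hS
      refine ⟨C, hC, fun m R => ?_⟩
      have h2 : ∃ N : ℕ, ∀ (V : Type v) (π : E →* Equiv.Perm V) (x : V),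
          ((Set.range fun g => π g x).Finite ∧ (Set.range fun g => π g x).ncard ≤ N) ∨
          ∃ y ∈ orbitBall π S x N, Thick π S C m R y := by
        rcases h1 m R with h3 | ⟨K, h3⟩
        · exact h3
        · obtain ⟨⟨c, hc⟩, h4⟩ := dichotomy hSf hS h3
          exact absurd hk.2.2 (not_monster hS hc h4 h7)
      refine ⟨fun _ => h2, fun V π hπ => ?_⟩
      by_contra hcon
      obtain ⟨N, hN⟩ := h2
      have h3 : Finite π.range := by
        refine finite_range_of_bounded hfg π (N := N) fun x => ?_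
        rcases hN V π x with h4 | ⟨y, -, hy⟩
        · exact h4
        · exact absurd ⟨y, hy⟩ hcon
      rcases hπ with hπ | hπ | hπ
      · refine hπ ⟨⊥, inferInstance, ?_⟩
        rintro x hx y hy
        rw [Subgroup.mem_bot.1 hx, Subgroup.mem_bot.1 hy]
      · have h4 : Finite E := Finite.of_injective π.rangeRestrict (fun x y hxy =>
          hπ (congrArg Subtype.val hxy))
        exact not_finite_iff_infinite.2 hk.2.1 h4
      · exact not_finite_iff_infinite.2 hπ.2 h3


theorem finite_of_isEmpty {X : Type} [IsEmpty X] : Finite (Equiv.Perm (List X)) := by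
  have h1 : Subsingleton (List X) := by
    constructor
    intro a b
    cases a with
    | nil =>
      cases b with
      | nil => rfl
      | cons x _ => exact (IsEmpty.false x).elim
    | cons x _ => exact (IsEmpty.false x).elim
  infer_instance

theorem virtuallyAbelian_of_finite {E : Type u} [Group E] {V : Type v} {π : E →* Equiv.Perm V}
    (h : Finite π.range) : VirtuallyAbelian π.range := by
  refine ⟨⊥, inferInstance, ?_⟩
  rintro x hx y hy
  rw [Subgroup.mem_bot.1 hx, Subgroup.mem_bot.1 hy]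

/-- Actions on trees with few sections. -/
theorem tree (E : Type u) [Group E] [Group.IsFinitelyPresented E] (X : Type) [Finite X]
    (π : E →* Equiv.Perm (List X)) (hπ : ∀ e, IsTreeAutomorphism (π e)) (S : Set E)
    (hSf : S.Finite) (hS : Subgroup.closure S = ⊤) (hfew : FewSections π S) :
    ((∃ c : E, Undistorted S c) ∨ Finite π.range) ∧
      (SubexponentialGrowth E → VirtuallyAbelian π.range) ∧
      ∀ k : ℕ, IsMonster k E → VirtuallyAbelian π.range ∧ ¬ Function.Injective π ∧
        (k ≠ 7 → Finite π.range) := by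
  have hfg : Group.FG E := Group.fg_iff.2 ⟨S, hS, hSf⟩
  rcases isEmpty_or_nonempty X with hX | hX
  · have h1 : Finite (Equiv.Perm (List X)) := finite_of_isEmpty
    have h2 : Finite π.range := inferInstance
    refine ⟨Or.inr h2, fun _ => virtuallyAbelian_of_finite h2, fun k hk =>
      ⟨virtuallyAbelian_of_finite h2, fun hinj => ?_, fun _ => h2⟩⟩
    exact not_finite_iff_infinite.2 hk.2.1 (Finite.of_injective π hinj)
  · obtain ⟨h1, h2, h3⟩ := main.{u, 0} E
    refine ⟨?_, fun hE => ?_, fun k hk => ?_⟩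
    · obtain ⟨C, hC, h4⟩ := h1 S hSf hS
      rcases h4 with h4 | h4
      · exact Or.inl h4
      · right
        obtain ⟨m, R, h5⟩ := Pool.Agent.Lib.H31Q.no_thick hπ hSf hfew hC
        obtain ⟨N, hN⟩ := h4 m R
        refine finite_range_of_bounded hfg π (N := N) fun x => ?_
        rcases hN _ π x with h6 | ⟨y, -, hy⟩
        · exact h6
        · exact absurd hy (h5 y)
    · obtain ⟨C, hC, h4⟩ := h2 hE S hSf hS
      obtain ⟨m, R, h5⟩ := Pool.Agent.Lib.H31Q.no_thick hπ hSf hfew hC
      obtain ⟨A, hA, h6⟩ := h4 m R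
      refine virtuallyAbelian_range π hA fun a ha b hb v => ?_
      obtain ⟨ℓ, hℓ⟩ := Pool.Agent.Lib.H65D.exists_mem_ball hS a
      obtain ⟨ℓ', hℓ'⟩ := Pool.Agent.Lib.H65D.exists_mem_ball hS b
      obtain ⟨N, hN⟩ := h6 (max ℓ ℓ')
      rcases hN _ π v with ⟨y, -, hy⟩ | h8
      · exact absurd hy (h5 y)
      · exact h8 a ha b hb (BN.ball_mono (le_max_left _ _) hℓ)
          (BN.ball_mono (le_max_right _ _) hℓ')
    · obtain ⟨C, hC, h4⟩ := h3 k hk S hSf hS
      obtain ⟨m, R, h5⟩ := Pool.Agent.Lib.H31Q.no_thick hπ hSf hfew hC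
      obtain ⟨-, h6⟩ := h4 m R
      refine ⟨?_, fun hinj => ?_, fun h7 => ?_⟩
      · by_contra hcon
        obtain ⟨y, hy⟩ := h6 _ π (Or.inl hcon)
        exact h5 y hy
      · obtain ⟨y, hy⟩ := h6 _ π (Or.inr (Or.inl hinj))
        exact h5 y hy
      · by_contra hcon
        obtain ⟨y, hy⟩ := h6 _ π (Or.inr (Or.inr ⟨h7, not_finite_iff_infinite.1 hcon⟩))
        exact h5 y hy

/-- Let `E` be a finitely presented group with a finite generating set `S`.

(1) There is `C` such that `E` has an undistorted element whose powers have only roots of bounded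
order, or for all `m` and `R` there is `N` such that, in every action of `E`, within distance `N`
of every point whose orbit has more than `N` points there is a thick point.

(2) Let `E` have subexponential growth. There is `C` such that for all `m` and `R` there is a
subgroup `A` of finite index and for every `L` there is `N` such that, in every action of `E`,
within distance `N` of every point which is not fixed by all commutators of elements of `A` of
length at most `L` (or rather `g h x ≠ h g x`) there is a thick point.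

(3) Let `E` be a monster of type `(k)`, `2 ≤ k ≤ 7`. There is `C` such that, for all `m` and `R`,
if `k ≠ 7` the second alternative in (1) holds, and every action of `E` whose image is not
virtually abelian, or which is faithful, or (if `k ≠ 7`) whose image is infinite, has a thick
point.

(4) Let `E` act on the rooted tree `X^*`, `X` finite, and suppose that there are few sections
(`FewSections`); this holds if the action is contracting with a coefficient `ρ < 1` and
`|X| ρ ^ 2 < 1`, or the number of active words of length `k` is at most `K L ^ k` with `L ρ < 1`.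
Then `E` has an undistorted element (as in (1)) or the image of `E` is finite. If `E` has
subexponential growth, then the image of `E` is virtually abelian. If `E` is a monster of type
`(k)`, `2 ≤ k ≤ 7`, then the image is virtually abelian (finite for `k ≠ 7`) and the action is not
faithful. -/
theorem result (E : Type u) [Group E] [Group.IsFinitelyPresented E] :
    (∀ S : Set E, S.Finite → Subgroup.closure S = ⊤ → ∃ C : ℕ, 0 < C ∧
      ((∃ c : E, Undistorted S c) ∨ ∀ m R : ℕ, ∃ N : ℕ,
        ∀ (V : Type v) (π : E →* Equiv.Perm V) (x : V),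
          ((Set.range fun g => π g x).Finite ∧ (Set.range fun g => π g x).ncard ≤ N) ∨
          ∃ y ∈ orbitBall π S x N, Thick π S C m R y)) ∧
    (SubexponentialGrowth E → ∀ S : Set E, S.Finite → Subgroup.closure S = ⊤ →
      ∃ C : ℕ, 0 < C ∧ ∀ m R : ℕ, ∃ A : Subgroup E, A.FiniteIndex ∧ ∀ L : ℕ, ∃ N : ℕ,
        ∀ (V : Type v) (π : E →* Equiv.Perm V) (x : V),
          (∃ y ∈ orbitBall π S x N, Thick π S C m R y) ∨
          ∀ g ∈ A, ∀ h ∈ A, g ∈ ball S L → h ∈ ball S L → π (g * h) x = π (h * g) x) ∧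
    (∀ k : ℕ, IsMonster k E → ∀ S : Set E, S.Finite → Subgroup.closure S = ⊤ →
      ∃ C : ℕ, 0 < C ∧ ∀ m R : ℕ,
        (k ≠ 7 → ∃ N : ℕ, ∀ (V : Type v) (π : E →* Equiv.Perm V) (x : V),
          ((Set.range fun g => π g x).Finite ∧ (Set.range fun g => π g x).ncard ≤ N) ∨
          ∃ y ∈ orbitBall π S x N, Thick π S C m R y) ∧
        ∀ (V : Type v) (π : E →* Equiv.Perm V),
          (¬ VirtuallyAbelian π.range ∨ Function.Injective π ∨ (k ≠ 7 ∧ Infinite π.range)) →
          ∃ y, Thick π S C m R y) ∧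
    ∀ (X : Type) [Finite X] (π : E →* Equiv.Perm (List X)), (∀ e, IsTreeAutomorphism (π e)) →
      ∀ S : Set E, S.Finite → Subgroup.closure S = ⊤ →
        ((∃ ρ : ℝ, 0 < ρ ∧ ρ < 1 ∧ ContractsWith π S ρ ∧
          ((Nat.card X : ℝ) * ρ ^ 2 < 1 ∨ ∃ L : ℝ, 0 ≤ L ∧ L * ρ < 1 ∧ ActivityRate π S L)) →
          FewSections π S) ∧
        (FewSections π S →
          ((∃ c : E, Undistorted S c) ∨ Finite π.range) ∧
          (SubexponentialGrowth E → VirtuallyAbelian π.range) ∧
          ∀ k : ℕ, IsMonster k E → VirtuallyAbelian π.range ∧ ¬ Function.Injective π ∧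
            (k ≠ 7 → Finite π.range)) := by
  obtain ⟨h1, h2, h3⟩ := main.{u, v} E
  refine ⟨h1, h2, h3, fun X _ π hπ S hSf hS => ⟨?_, tree E X π hπ S hSf hS⟩⟩
  rintro ⟨ρ, h0, h1, ⟨q, D, hD, hc⟩, h⟩
  refine Pool.Agent.Lib.H31Q.fewSections_of_rates h0 h1 hD hc ?_
  rcases h with h | ⟨L, h4, h5, K, h6⟩
  · exact Or.inl h
  · exact Or.inr ⟨K, L, h4, h5, h6⟩

end Pool.Agent.Results.MP_65b575_al.QuadraticGrowth
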