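import Pool.Agent.Lib.H31.Ends.Final

/-!
# Small cuts in Schreier graphs of finitely presented groups

Let `G` be a finitely presented group with a finite generating set `S`. If for some `K` there are
Schreier graphs of `G` with arbitrarily long chains of nested cuts whose vertex boundaries are
disjoint and have at most `K` vertices, then `G` has an undistorted element whose powers have only
roots of bounded order. Finitely presented monsters of the types (2)-(6) have no such chains, so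
all the ends of their Schreier graphs are thick.
-/

namespace Pool.Agent.Results.MP_65b575_al.SmallCuts

universe u

/-- The vertex boundary of a set `A` of vertices of the Schreier graph of `H` with respect to `S`
(vertices: the cosets `gH`, edges: `gH - sgH`): the vertices of `A` with a neighbour outside. -/
def vertexBoundary {G : Type u} [Group G] (S : Set G) {H : Subgroup G} (A : Set (G ⧸ H)) :
    Set (G ⧸ H) :=
  {y | y ∈ A ∧ ∃ s ∈ S, s • y ∉ A ∨ s⁻¹ • y ∉ A}

/-- The vertex boundary of `A` has at most `K` vertices. -/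
def IsSmall {G : Type u} [Group G] (S : Set G) {H : Subgroup G} (K : ℕ) (A : Set (G ⧸ H)) :
    Prop :=
  (vertexBoundary S A).Finite ∧ (vertexBoundary S A).ncard ≤ K

/-- A chain `A 0 ⊇ A 1 ⊇ ...` of `N` nonempty proper sets of vertices of a Schreier graph, whose
vertex boundaries are pairwise disjoint and have at most `K` vertices. -/
def IsCutChain {G : Type u} [Group G] (S : Set G) {H : Subgroup G} (K N : ℕ)
    (A : Fin N → Set (G ⧸ H)) : Prop :=
  (∀ i j, i < j → A j ⊆ A i) ∧ (∀ i, (A i).Nonempty ∧ A i ≠ Set.univ) ∧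
    (∀ i j, i < j → Disjoint (vertexBoundary S (A i)) (vertexBoundary S (A j))) ∧
      ∀ i, IsSmall S K (A i)

/-- The word length of `g` with respect to `S` is at most `n`. -/
def LengthLE {G : Type u} [Group G] (S : Set G) (g : G) (n : ℕ) : Prop :=
  ∃ l : List G, l.length ≤ n ∧ (∀ x ∈ l, x ∈ S ∨ x⁻¹ ∈ S) ∧ l.prod = g

/-- The properties (2)-(6) of the problem. -/
def MonsterProperty (k : ℕ) (G : Type u) [Group G] : Prop :=
  (k = 2 ∧ ∃ n : ℕ, 1 ≤ n ∧ ∀ g : G, g ^ n = 1) ∨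
  (k = 3 ∧ ¬ IsCyclic G ∧ ∀ H : Subgroup G, H ≠ ⊤ → IsCyclic H) ∨
  (k = 4 ∧ ∃ p : ℕ, p.Prime ∧ ∀ H : Subgroup G, H ≠ ⊥ → H ≠ ⊤ → IsCyclic H ∧ Nat.card H = p) ∨
  (k = 5 ∧ ∀ g : G, ∀ m : ℕ, 1 ≤ m → ∃ h : G, h ^ m = g) ∨
  (k = 6 ∧ Finite (ConjClasses G))

/-- `G` is a monster of type `(k)`, for `k` from 2 to 6. -/
def IsMonster (k : ℕ) (G : Type u) [Group G] : Prop :=
  Group.FG G ∧ Infinite G ∧ MonsterProperty k G

/-! ### Proofs -/

open Pool.Agent.Lib.H31.Ends (Flow exists_flow_of_cutChain InB not_finite_conj T3)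

/-- The element given by long chains, and the exclusion of all monster properties. -/
theorem dichotomy {G : Type u} [Group G] [hfp : Group.IsFinitelyPresented G] {S : Set G}
    (hS : S.Finite) (hgen : Subgroup.closure S = ⊤) (K : ℕ)
    (h : ∀ N : ℕ, ∃ (H : Subgroup G) (A : Fin N → Set (G ⧸ H)), IsCutChain S K N A) :
    (∃ (c : G) (M : ℕ), (∀ n k : ℕ, LengthLE S (c ^ n) k → n ≤ M * k) ∧
      ∀ (h : G) (m e : ℕ), 0 < e → h ^ m = c ^ e → m ≤ M * e) ∧
    ¬ (¬ IsCyclic G ∧ ∀ H : Subgroup G, H ≠ ⊤ → IsCyclic H) := by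
  obtain ⟨n, φ, hφ, R, hRf, hR⟩ := hfp.out
  obtain ⟨X, ⟨F⟩⟩ := exists_flow_of_cutChain hφ hRf hR hgen K h
  obtain ⟨M, hM1, hM2⟩ := F.exists_element hφ hS
  refine ⟨⟨F.c, M, ?_, hM2⟩, ?_⟩
  · rintro n k ⟨l, h1, h2, h3⟩
    exact (hM1 n l h2 h3).trans (Nat.mul_le_mul_left _ h1)
  · rintro ⟨h1, h2⟩
    exact F.not_T3 hφ ⟨h1, h2⟩

theorem not_monster {G : Type u} [Group G] {S : Set G} (hgen : Subgroup.closure S = ⊤)
    {c : G} {M : ℕ} (h1 : ∀ n k : ℕ, LengthLE S (c ^ n) k → n ≤ M * k)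
    (h2 : ∀ (h : G) (m e : ℕ), 0 < e → h ^ m = c ^ e → m ≤ M * e)
    (h3 : ¬ (¬ IsCyclic G ∧ ∀ H : Subgroup G, H ≠ ⊤ → IsCyclic H)) (k : ℕ) :
    ¬ MonsterProperty k G := by
  have hinf : ∀ n : ℕ, 0 < n → c ^ n ≠ 1 := by
    intro n hn h
    have := h1 n 0 ⟨[], by simp, by simp, by rw [h]; rfl⟩
    omega
  rintro (⟨_, n, hn, h⟩ | ⟨_, h⟩ | ⟨_, p, hp, h⟩ | ⟨_, h⟩ | ⟨_, h⟩)
  · exact hinf n hn (h c)
  · exact h3 h
  · have key : ∀ m : ℕ, 0 < m → Subgroup.zpowers (c ^ m) ≠ ⊤ → False := by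
      intro m hm htop
      have hbot : Subgroup.zpowers (c ^ m) ≠ ⊥ := by
        rw [Ne, Subgroup.zpowers_eq_bot]
        exact hinf m hm
      have h4 := (h _ hbot htop).2
      rw [Nat.card_zpowers] at h4
      have h5 : (c ^ m) ^ p = 1 := by
        rw [← h4]
        exact pow_orderOf_eq_one _
      rw [← pow_mul] at h5
      exact hinf _ (Nat.mul_pos hm hp.pos) h5
    by_cases htop : Subgroup.zpowers (c ^ 2) = ⊤
    · have h4 : c ∈ Subgroup.zpowers (c ^ 2) := by rw [htop]; trivial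
      obtain ⟨k, hk⟩ := h4
      have hk' : (c ^ 2) ^ k = c := hk
      have h5 : c ^ (2 * k - 1) = 1 := by
        rw [zpow_sub_one, zpow_mul]
        have h6 : (c ^ (2 : ℤ)) ^ k = c := by exact_mod_cast hk'
        rw [h6, mul_inv_cancel]
      have h6 : c ^ (2 * k - 1).natAbs = 1 := by
        rcases Int.natAbs_eq (2 * k - 1) with h7 | h7
        · rw [h7, zpow_natCast] at h5
          exact h5
        · rw [h7, zpow_neg, inv_eq_one, zpow_natCast] at h5
          exact h5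
      exact hinf _ (Int.natAbs_pos.2 (by omega)) h6
    · exact key 2 (by norm_num) htop
  · obtain ⟨g, hg⟩ := h c (M + 1) (by omega)
    have h4 := h2 g (M + 1) 1 one_pos (by rw [hg, pow_one])
    omega
  · refine not_finite_conj hgen (c := c) (M := M) ?_ h
    rintro r k ⟨l, h4, h5, h6⟩
    exact h1 r k ⟨l, h6, h4, h5⟩

/-- A thin end gives long chains. -/
theorem chain_of_end {G : Type u} [Group G] {S : Set G} {K : ℕ} {H : Subgroup G}
    {A : ℕ → Set (G ⧸ H)} (h1 : ∀ n, A (n + 1) ⊆ A n) (h2 : ∀ n, (A n).Nonempty)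
    (h3 : ⋂ n, A n = ∅) (h4 : ∀ n, IsSmall S K (A n)) (N : ℕ) :
    ∃ B : Fin N → Set (G ⧸ H), IsCutChain S K N B := by
  have hanti : ∀ m n, m ≤ n → A n ⊆ A m := fun m n hmn => antitone_nat_of_succ_le h1 hmn
  have hesc : ∀ D : Set (G ⧸ H), D.Finite → ∃ m, ∀ n, m ≤ n → ∀ y ∈ D, y ∉ A n := by
    intro D hD
    induction D, hD using Set.Finite.induction_on with
    | empty => exact ⟨0, fun n _ y hy => absurd hy (Set.notMem_empty y)⟩
    | @insert a D _ _ ih =>
      obtain ⟨m1, hm1⟩ := ih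
      have h5 : a ∉ ⋂ n, A n := by rw [h3]; exact Set.notMem_empty a
      rw [Set.mem_iInter, not_forall] at h5
      obtain ⟨m2, hm2⟩ := h5
      refine ⟨max m1 m2, fun n hn y hy => ?_⟩
      rcases Set.mem_insert_iff.1 hy with rfl | hy
      · exact fun h => hm2 (hanti _ _ ((le_max_right _ _).trans hn) h)
      · exact hm1 n ((le_max_left _ _).trans hn) y hy
  obtain ⟨m0, hm0⟩ := hesc {((1 : G) : G ⧸ H)} (Set.finite_singleton _)
  have hstep : ∀ m, ∃ m', m ≤ m' ∧ ∀ n, m' ≤ n → ∀ y ∈ vertexBoundary S (A m), y ∉ A n := by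
    intro m
    obtain ⟨m', hm'⟩ := hesc _ (h4 m).1
    exact ⟨max m m', le_max_left _ _, fun n hn => hm' n ((le_max_right _ _).trans hn)⟩
  choose f hf1 hf2 using hstep
  let g : ℕ → ℕ := fun i => f^[i] m0
  have hg : ∀ i, g (i + 1) = f (g i) := fun i => Function.iterate_succ_apply' f i m0
  have hgm : Monotone g := monotone_nat_of_le_succ (fun i => by
    rw [hg]
    exact hf1 _)
  refine ⟨fun i => A (g i), fun i j hij => hanti _ _ (hgm (le_of_lt hij)), fun i => ⟨h2 _, ?_⟩,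
    fun i j hij => ?_, fun i => h4 _⟩
  · intro h5
    have h5' : A (g i) = Set.univ := h5
    have h6 : ((1 : G) : G ⧸ H) ∈ A (g i) := by rw [h5']; trivial
    exact hm0 (g i) (hgm (Nat.zero_le _)) _ (Set.mem_singleton _) h6
  · rw [Set.disjoint_left]
    intro y hy1 hy2
    refine hf2 (g i) (g j) ?_ y hy1 hy2.1
    rw [← hg]
    exact hgm hij

/-- Let `G` be a finitely presented group, `S` a finite generating set and `K` a natural number.
Either the lengths of the chains of nested cuts with disjoint boundaries of at most `K` vertices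
in the Schreier graphs of `G` are bounded, or `G` contains an element `c` with
`n ≤ M * |c ^ n|` for all `n`, such that an `m`-th root of `c ^ e`, `e > 0`, exists only for
`m ≤ M * e`. If `G` is a monster of type `(k)`, `2 ≤ k ≤ 6`, then the lengths of the chains are
bounded; in particular no sequence of sets with boundaries of at most `K` vertices defines
an end of a Schreier graph. -/
theorem result (G : Type u) [Group G] [Group.IsFinitelyPresented G] (S : Set G) (hS : S.Finite)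
    (hgen : Subgroup.closure S = ⊤) (K : ℕ) :
    ((∃ N : ℕ, ∀ (H : Subgroup G) (A : Fin N → Set (G ⧸ H)), ¬ IsCutChain S K N A) ∨
      ∃ (c : G) (M : ℕ), (∀ n k : ℕ, LengthLE S (c ^ n) k → n ≤ M * k) ∧
        ∀ (h : G) (m e : ℕ), 0 < e → h ^ m = c ^ e → m ≤ M * e) ∧
    ∀ k : ℕ, IsMonster k G →
      (∃ N : ℕ, ∀ (H : Subgroup G) (A : Fin N → Set (G ⧸ H)), ¬ IsCutChain S K N A) ∧
      ∀ (H : Subgroup G) (A : ℕ → Set (G ⧸ H)), (∀ n, A (n + 1) ⊆ A n) →
        (∀ n, (A n).Nonempty) → ⋂ n, A n = ∅ → ∃ n, ¬ IsSmall S K (A n) := by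
  by_cases h : ∃ N : ℕ, ∀ (H : Subgroup G) (A : Fin N → Set (G ⧸ H)), ¬ IsCutChain S K N A
  · refine ⟨Or.inl h, fun k _ => ⟨h, fun H A h1 h2 h3 => ?_⟩⟩
    by_contra hcon
    push Not at hcon
    obtain ⟨N, hN⟩ := h
    obtain ⟨B, hB⟩ := chain_of_end h1 h2 h3 hcon N
    exact hN H B hB
  · push Not at h
    obtain ⟨⟨c, M, h1, h2⟩, h3⟩ := dichotomy hS hgen K h
    exact ⟨Or.inr ⟨c, M, h1, h2⟩, fun k hk => absurd hk.2.2 (not_monster hgen h1 h2 h3 k)⟩

end Pool.Agent.Results.MP_65b575_al.SmallCuts
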